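import Pool.Agent.Y732.FamCard
import Pool.Agent.Y732.Tors

/-!
# The quadratic twists of an elliptic curve with a point coming from a rational abscissa

`d = v g`, `g = u³ + a u v² + b v³`, `v = D w`: the twist `y² = x³ + a d² x + b d³` contains the point
`(u g, g²)` and its double `(x / 4, y / 8)`.
-/

set_option autoImplicit false

namespace Pool.Agent.Q1.SH

open Pool.Agent.Y732 MvPolynomial

/-- the quadratic twist by `d` of the curve `y² = x³ + a x + b` -/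
def Tw (a b d : ℤ) : WeierstrassCurve ℤ := ⟨0, 0, 0, a * d ^ 2, b * d ^ 3⟩

/-- `u³ + a u v² + b v³` -/
def gg (a b u v : ℤ) : ℤ := u ^ 3 + a * u * v ^ 2 + b * v ^ 3

section poly

variable (a b D : ℤ)

noncomputable def pV : MvPolynomial (Fin 2) ℤ := C D * X 1

noncomputable def pg : MvPolynomial (Fin 2) ℤ :=
  X 0 ^ 3 + C a * X 0 * pV D ^ 2 + C b * pV D ^ 3

noncomputable def pd : MvPolynomial (Fin 2) ℤ := pV D * pg a b D

noncomputable def px : MvPolynomial (Fin 2) ℤ :=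
  X 0 ^ 4 + C (-2 * a) * X 0 ^ 2 * pV D ^ 2 + C (-8 * b) * X 0 * pV D ^ 3 + C (a ^ 2) * pV D ^ 4

noncomputable def py : MvPolynomial (Fin 2) ℤ :=
  X 0 ^ 6 + C (5 * a) * X 0 ^ 4 * pV D ^ 2 + C (20 * b) * X 0 ^ 3 * pV D ^ 3 +
    C (-5 * a ^ 2) * X 0 ^ 2 * pV D ^ 4 + C (-4 * a * b) * X 0 * pV D ^ 5 +
    C (-8 * b ^ 2 - a ^ 3) * pV D ^ 6

lemma wX (i : Fin 2) : IsWeightedHomogeneous ![1, 1] (X i : MvPolynomial (Fin 2) ℤ) 1 := by
  have := isWeightedHomogeneous_X ℤ (![1, 1] : Fin 2 → ℕ) i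
  fin_cases i <;> exact this

lemma wV : IsWeightedHomogeneous ![1, 1] (pV D) 1 := by
  have := (isWeightedHomogeneous_C (![1, 1] : Fin 2 → ℕ) D).mul (wX 1)
  exact this

lemma wt {i j n : ℕ} (c : ℤ) (h : i + j = n) :
    IsWeightedHomogeneous ![1, 1] (C c * X 0 ^ i * pV D ^ j) n := by
  have h1 := ((isWeightedHomogeneous_C (![1, 1] : Fin 2 → ℕ) c).mul ((wX 0).pow i)).mul
    ((wV D).pow j)
  have h2 : 0 + i • 1 + j • 1 = n := by
    simp only [smul_eq_mul, mul_one, zero_add]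
    exact h
  rwa [h2] at h1

lemma wg : IsWeightedHomogeneous ![1, 1] (pg a b D) 3 := by
  have h1 := wt D (i := 3) (j := 0) (n := 3) 1 rfl
  have h2 := wt D (i := 1) (j := 2) (n := 3) a rfl
  have h3 := wt D (i := 0) (j := 3) (n := 3) b rfl
  have h := (h1.add h2).add h3
  have e : pg a b D = C 1 * X 0 ^ 3 * pV D ^ 0 + C a * X 0 ^ 1 * pV D ^ 2 +
      C b * X 0 ^ 0 * pV D ^ 3 := by
    rw [pg, C_1]
    ring
  rw [e]
  exact h

lemma wd : IsWeightedHomogeneous ![1, 1] (pd a b D) 4 := (wV D).mul (wg a b D)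

lemma wx : IsWeightedHomogeneous ![1, 1] (px a b D) 4 := by
  have h1 := wt D (i := 4) (j := 0) (n := 4) 1 rfl
  have h2 := wt D (i := 2) (j := 2) (n := 4) (-2 * a) rfl
  have h3 := wt D (i := 1) (j := 3) (n := 4) (-8 * b) rfl
  have h4 := wt D (i := 0) (j := 4) (n := 4) (a ^ 2) rfl
  have h := ((h1.add h2).add h3).add h4
  have e : px a b D = C 1 * X 0 ^ 4 * pV D ^ 0 + C (-2 * a) * X 0 ^ 2 * pV D ^ 2 +
      C (-8 * b) * X 0 ^ 1 * pV D ^ 3 + C (a ^ 2) * X 0 ^ 0 * pV D ^ 4 := by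
    rw [px, C_1]
    ring
  rw [e]
  exact h

lemma wy : IsWeightedHomogeneous ![1, 1] (py a b D) 6 := by
  have h1 := wt D (i := 6) (j := 0) (n := 6) 1 rfl
  have h2 := wt D (i := 4) (j := 2) (n := 6) (5 * a) rfl
  have h3 := wt D (i := 3) (j := 3) (n := 6) (20 * b) rfl
  have h4 := wt D (i := 2) (j := 4) (n := 6) (-5 * a ^ 2) rfl
  have h5 := wt D (i := 1) (j := 5) (n := 6) (-4 * a * b) rfl
  have h6 := wt D (i := 0) (j := 6) (n := 6) (-8 * b ^ 2 - a ^ 3) rfl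
  have h := ((((h1.add h2).add h3).add h4).add h5).add h6
  have e : py a b D = C 1 * X 0 ^ 6 * pV D ^ 0 + C (5 * a) * X 0 ^ 4 * pV D ^ 2 +
      C (20 * b) * X 0 ^ 3 * pV D ^ 3 + C (-5 * a ^ 2) * X 0 ^ 2 * pV D ^ 4 +
      C (-4 * a * b) * X 0 ^ 1 * pV D ^ 5 + C (-8 * b ^ 2 - a ^ 3) * X 0 ^ 0 * pV D ^ 6 := by
    rw [py, C_1]
    ring
  rw [e]
  exact h

/-- the family of the twists -/
noncomputable def F : Family 2 1 where
  w := ![1, 1]
  χ := 2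
  n := fun _ _ => 0
  W := ⟨0, 0, 0, C a * pd a b D ^ 2, C b * pd a b D ^ 3⟩
  x := fun _ _ => px a b D
  y := fun _ _ => py a b D
  e := fun _ _ => C 2
  h₁ := isWeightedHomogeneous_zero ℤ _ _
  h₂ := isWeightedHomogeneous_zero ℤ _ _
  h₃ := isWeightedHomogeneous_zero ℤ _ _
  h₄ := by
    have := (isWeightedHomogeneous_C (![1, 1] : Fin 2 → ℕ) a).mul ((wd a b D).pow 2)
    exact this
  h₆ := by
    have := (isWeightedHomogeneous_C (![1, 1] : Fin 2 → ℕ) b).mul ((wd a b D).pow 3)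
    exact this
  hx := fun _ _ => wx a b D
  hy := fun _ _ => wy a b D
  he := fun _ _ => isWeightedHomogeneous_C _ _

lemma F_K : (F a b D).K.det = 4 := by
  rw [Matrix.det_fin_one]
  simp [Family.K, F]

variable (v : Fin 2 → ℤ)

lemma ev_V : eval v (pV D) = D * v 1 := by simp [pV]

lemma ev_g : eval v (pg a b D) = gg a b (v 0) (D * v 1) := by
  simp [pg, gg, ev_V]

lemma ev_d : eval v (pd a b D) = D * v 1 * gg a b (v 0) (D * v 1) := by
  rw [pd, map_mul, ev_V, ev_g]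

lemma F_curve : (F a b D).curve v = Tw a b (D * v 1 * gg a b (v 0) (D * v 1)) := by
  ext <;> simp [Family.curve, F, Tw, ev_d]

/-- numerators of the coordinates of the double point -/
def xx (a b u v : ℤ) : ℤ := u ^ 4 - 2 * a * u ^ 2 * v ^ 2 - 8 * b * u * v ^ 3 + a ^ 2 * v ^ 4

def yy (a b u v : ℤ) : ℤ :=
  u ^ 6 + 5 * a * u ^ 4 * v ^ 2 + 20 * b * u ^ 3 * v ^ 3 - 5 * a ^ 2 * u ^ 2 * v ^ 4 -
    4 * a * b * u * v ^ 5 - (8 * b ^ 2 + a ^ 3) * v ^ 6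

lemma ev_x (i j : Fin 2) : eval v ((F a b D).x i j) = xx a b (v 0) (D * v 1) := by
  change eval v (px a b D) = _
  simp [px, xx, ev_V]
  ring

lemma ev_y (i j : Fin 2) : eval v ((F a b D).y i j) = yy a b (v 0) (D * v 1) := by
  change eval v (py a b D) = _
  simp [py, yy, ev_V]
  ring

lemma ev_e (i j : Fin 2) : eval v ((F a b D).e i j) = 2 := by
  change eval v (C 2) = _
  simp

end poly

/-- the equation of the double point -/
lemma xy_eq (a b u v : ℤ) : OnCurve (Tw a b (v * gg a b u v)) (xx a b u v) (yy a b u v) 2 := by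
  simp only [OnCurve, Tw, xx, yy, gg]
  ring

lemma prime_dvd_pow {ℓ : ℤ} (h : Prime ℓ) {x : ℤ} {n : ℕ} (hx : ℓ ∣ x ^ n) : ℓ ∣ x :=
  h.dvd_of_dvd_pow hx

/-- the double point is nonsingular modulo all primes -/
lemma xy_ns {a b u v : ℤ} (huv : IsCoprime u v)
    (hD : ∀ ℓ : ℕ, ℓ.Prime → (ℓ : ℤ) ∣ 4 * a ^ 3 + 27 * b ^ 2 → (ℓ : ℤ) ∣ v) :
    EverywhereNonsingular (Tw a b (v * gg a b u v)) (xx a b u v) (yy a b u v) 2 := by
  intro ℓ hℓ
  by_cases h2 : ℓ = 2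
  · left
    rw [h2]
    norm_num
  right
  have hp := Nat.prime_iff_prime_int.1 hℓ
  have hn2 : ¬ (ℓ : ℤ) ∣ 2 := by
    intro h
    have : ℓ ∣ 2 := by exact_mod_cast h
    exact h2 ((Nat.prime_dvd_prime_iff_eq hℓ Nat.prime_two).1 this)
  -- `ℓ` does not divide `v`
  have key : ∀ h : (ℓ : ℤ) ∣ yy a b u v, ¬ (ℓ : ℤ) ∣ v := by
    intro h hv
    have h1 : (ℓ : ℤ) ∣ u ^ 6 := by
      have e : u ^ 6 = yy a b u v - v * (5 * a * u ^ 4 * v + 20 * b * u ^ 3 * v ^ 2 -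
          5 * a ^ 2 * u ^ 2 * v ^ 3 - 4 * a * b * u * v ^ 4 - (8 * b ^ 2 + a ^ 3) * v ^ 5) := by
        rw [yy]
        ring
      rw [e]
      exact dvd_sub h (hv.mul_right _)
    have h2 := prime_dvd_pow hp h1
    exact hp.not_isUnit (huv.isUnit_of_dvd' h2 hv)
  rintro ⟨h1, h3⟩
  simp only [Tw] at h1 h3
  set d := v * gg a b u v with hd
  have hy : (ℓ : ℤ) ∣ yy a b u v := by
    have e : 2 * yy a b u v + 0 * xx a b u v * 2 + 0 * 2 ^ 3 = 2 * yy a b u v := by ring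
    rw [e] at h1
    exact (hp.dvd_or_dvd h1).resolve_left hn2
  have hv := key hy
  have hx : (ℓ : ℤ) ∣ 3 * xx a b u v ^ 2 + 16 * (a * d ^ 2) := by
    have e : 3 * xx a b u v ^ 2 + 16 * (a * d ^ 2) = -(0 * yy a b u v * 2 -
      (3 * xx a b u v ^ 2 + 2 * 0 * xx a b u v * 2 ^ 2 + a * d ^ 2 * 2 ^ 4)) := by ring
    rw [e]
    exact h3.neg_right
  have hE : yy a b u v ^ 2 = xx a b u v ^ 3 + 16 * (a * d ^ 2) * xx a b u v + 64 * (b * d ^ 3) := by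
    have := xy_eq a b u v
    simp only [OnCurve, Tw] at this
    linear_combination this
  have hdisc : (ℓ : ℤ) ∣ 2 ^ 12 * (d ^ 6 * (4 * a ^ 3 + 27 * b ^ 2)) := by
    have e : 2 ^ 12 * (d ^ 6 * (4 * a ^ 3 + 27 * b ^ 2)) =
        yy a b u v * (yy a b u v *
          (-18 * (16 * (a * d ^ 2)) * xx a b u v + 27 * (64 * (b * d ^ 3)))) +
        (3 * xx a b u v ^ 2 + 16 * (a * d ^ 2)) * (6 * (16 * (a * d ^ 2)) * xx a b u v ^ 2 -
          9 * (64 * (b * d ^ 3)) * xx a b u v + 4 * (16 * (a * d ^ 2)) ^ 2) := by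
      linear_combination
        (-(-18 * (16 * (a * d ^ 2)) * xx a b u v + 27 * (64 * (b * d ^ 3)))) * hE
    rw [e]
    exact dvd_add (hy.mul_right _) (hx.mul_right _)
  have hd6 : (ℓ : ℤ) ∣ d := by
    rcases hp.dvd_or_dvd hdisc with h | h
    · exact absurd (prime_dvd_pow hp h) hn2
    rcases hp.dvd_or_dvd h with h | h
    · exact prime_dvd_pow hp h
    · exact absurd (hD ℓ hℓ h) hv
  have hg : (ℓ : ℤ) ∣ gg a b u v := (hp.dvd_or_dvd hd6).resolve_left hv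
  have h5 : (ℓ : ℤ) ∣ 3 * u ^ 2 + a * v ^ 2 := by
    have e : (3 * u ^ 2 + a * v ^ 2) ^ 3 = -yy a b u v +
        gg a b u v * (8 * u * (3 * u ^ 2 + a * v ^ 2) +
          4 * u * (3 * u ^ 2 + a * v ^ 2) - 8 * gg a b u v) := by
      simp only [yy, gg]
      ring
    apply prime_dvd_pow hp (n := 3)
    rw [e]
    exact dvd_add hy.neg_right (hg.mul_right _)
  have h6 : (ℓ : ℤ) ∣ v ^ 6 * (4 * a ^ 3 + 27 * b ^ 2) := by
    have e : v ^ 6 * (4 * a ^ 3 + 27 * b ^ 2) =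
        gg a b u v * (-18 * (a * v ^ 2) * u + 27 * (b * v ^ 3)) +
        (3 * u ^ 2 + a * v ^ 2) * (6 * (a * v ^ 2) * u ^ 2 - 9 * (b * v ^ 3) * u +
          4 * (a * v ^ 2) ^ 2) := by
      simp only [gg]
      ring
    rw [e]
    exact dvd_add (hg.mul_right _) (h5.mul_right _)
  rcases hp.dvd_or_dvd h6 with h | h
  · exact hv (prime_dvd_pow hp h)
  · exact hv (hD ℓ hℓ h)

lemma Tw_Δ (a b d : ℤ) : (Tw a b d).Δ = -16 * (d ^ 6 * (4 * a ^ 3 + 27 * b ^ 2)) := by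
  simp only [Tw, WeierstrassCurve.Δ, WeierstrassCurve.b₂, WeierstrassCurve.b₄, WeierstrassCurve.b₆,
    WeierstrassCurve.b₈]
  ring

/-- the members of the family are marked -/
theorem F_marked {a b D : ℤ} (hab : 4 * a ^ 3 + 27 * b ^ 2 ≠ 0) (h2 : (2 : ℤ) ∣ D)
    (hD : ∀ ℓ : ℕ, ℓ.Prime → (ℓ : ℤ) ∣ 4 * a ^ 3 + 27 * b ^ 2 → (ℓ : ℤ) ∣ D) {v : Fin 2 → ℤ}
    (hc : IsCoprime (v 0) (D * v 1)) (hd : D * v 1 * gg a b (v 0) (D * v 1) ≠ 0) :
    (F a b D).Marked v := by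
  refine ⟨?_, ?_, ?_⟩
  · rw [F_curve, Tw_Δ]
    exact mul_ne_zero (by norm_num) (mul_ne_zero (pow_ne_zero _ hd) hab)
  · intro i j hij
    rw [ev_e, ev_x, ev_y, F_curve]
    refine ⟨by norm_num, ?_, xy_eq _ _ _ _, xy_ns hc fun ℓ hℓ h => (hD ℓ hℓ h).mul_right _⟩
    -- `x` is odd
    have h3 : IsCoprime (v 0 ^ 4) (2 : ℤ) :=
      (hc.of_isCoprime_of_dvd_right (h2.mul_right _)).pow_left
    have e : xx a b (v 0) (D * v 1) = v 0 ^ 4 + 2 * (- a * v 0 ^ 2 * (D * v 1) ^ 2 -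
        4 * b * v 0 * (D * v 1) ^ 3) + (D * v 1) * (a ^ 2 * (D * v 1) ^ 3) := by
      rw [xx]
      ring
    obtain ⟨k, hk⟩ := h2
    have e2 : xx a b (v 0) (D * v 1) = v 0 ^ 4 + 2 * ((- a * v 0 ^ 2 * (D * v 1) ^ 2 -
        4 * b * v 0 * (D * v 1) ^ 3) + (k * v 1) * (a ^ 2 * (D * v 1) ^ 3)) := by
      rw [e]
      nth_rewrite 3 [hk]
      ring
    rw [e2]
    exact IsCoprime.add_mul_left_left h3 _
  · intro i j k hij hjk
    exfalso
    revert i j k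
    decide

end Pool.Agent.Q1.SH
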