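import Pool.Agent.Q1.SH.Fam

/-!
# Twists with a point of nonzero `p`-adic height for many primes
-/

set_option autoImplicit false

namespace Pool.Agent.Q1.SH

open Pool.Agent.Y732 MvPolynomial

/-- The elliptic curve `W` has a rational point `P` of infinite order such that at all primes
`5 ≤ p ≤ Y` of good ordinary reduction the canonical `p`-adic height of `P` is not zero, and, if
the rank is one, Schneider's conjecture holds at `p`. -/
def Good (W : WeierstrassCurve ℤ) (Y : ℝ) : Prop :=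
  ∃ P : (WQ W).Point, (∀ n : ℕ, 1 ≤ n → n • P ≠ 0) ∧
    ∀ (p : ℕ) [Fact p.Prime], 5 ≤ p → (p : ℝ) ≤ Y → IsOrdinaryW p W →
      ∀ h : (WQ W).Point → ℚ_[p], IsHeightW p W h → h P ≠ 0 ∧
        (Module.finrank ℤ (WQ W).Point = 1 →
          ∀ (s : ℕ) (c : Fin s → (WQ W).Point), LinearIndependent ℤ c →
            (∀ Q, ∃ n : ℤ, n ≠ 0 ∧ n • Q ∈ Submodule.span ℤ (Set.range c)) → Reg h c ≠ 0)

/-- a point with even denominator and odd numerator has infinite order -/
lemma order_aux {V : WeierstrassCurve.Affine ℚ} {A B : ℤ} (hV : V = EQ A B) {x y e : ℤ}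
    (hP : V.Nonsingular ((x : ℚ) / (e : ℚ) ^ 2) ((y : ℚ) / (e : ℚ) ^ 3)) (he : e ≠ 0)
    (h2 : (2 : ℤ) ∣ e) (hx : ¬ (2 : ℤ) ∣ x) (n : ℕ) (hn : 1 ≤ n) :
    n • (WeierstrassCurve.Affine.Point.some _ _ hP) ≠ 0 := by
  subst hV
  exact two_adic A B n hn x y e hP he h2 hx

lemma WQ_Tw (a b d : ℤ) : WQ (Tw a b d) = EQ (a * d ^ 2) (b * d ^ 3) := by
  change (Tw a b d).map (Int.castRingHom ℚ) = Wc _ _
  ext <;> simp [Tw, Wc, WeierstrassCurve.map]

lemma pt_order {a b d x y : ℤ} (h : OnCurve (Tw a b d) x y 2) (hD : (Tw a b d).Δ ≠ 0)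
    (hx : ¬ (2 : ℤ) ∣ x) (n : ℕ) (hn : 1 ≤ n) : n • pt (Tw a b d) x y 2 ≠ 0 := by
  have hP := triple_rat h hD two_ne_zero
  have e : pt (Tw a b d) x y 2 = .some _ _ hP := dif_pos hP
  rw [e]
  exact order_aux (WQ_Tw a b d) hP two_ne_zero (dvd_refl 2) hx n hn

/-- nonvanishing for the members of the family -/
theorem good_of_nonDeg {a b D : ℤ} {v : Fin 2 → ℤ} (hM : (F a b D).Marked v) {Y : ℝ}
    (hN : ∀ (p : ℕ) [Fact p.Prime], 5 ≤ p → (p : ℝ) ≤ Y →
      IsOrdinaryW p ((F a b D).curve v) → (F a b D).NonDeg v p) :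
    Good (Tw a b (D * v 1 * gg a b (v 0) (D * v 1))) Y := by
  rw [← F_curve]
  refine ⟨(F a b D).P v 0 1, ?_, ?_⟩
  · intro n hn
    obtain ⟨hD, h1, -⟩ := hM
    obtain ⟨-, h2, h3, -⟩ := h1 0 1 (by decide)
    have e : (F a b D).P v 0 1 = pt ((F a b D).curve v) (xx a b (v 0) (D * v 1))
        (yy a b (v 0) (D * v 1)) 2 := by
      rw [Family.P, ev_e, ev_x, ev_y]
    rw [e]
    rw [ev_e, ev_x] at h2
    rw [ev_e, ev_x, ev_y] at h3
    have hx : ¬ (2 : ℤ) ∣ xx a b (v 0) (D * v 1) := by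
      intro h
      have := h2.isUnit_of_dvd' h (dvd_refl 2)
      rw [Int.isUnit_iff] at this
      omega
    revert hD h3
    rw [F_curve]
    intro hD h3
    exact pt_order h3 hD hx n hn
  · intro p _ hp5 hpY ho h hh
    have h1 := hN p hp5 hpY ho h hh
    refine ⟨?_, ?_⟩
    · intro h0
      apply h1.1
      rw [Reg, Matrix.det_fin_one]
      simp only [Matrix.of_apply]
      change h ((F a b D).P v 0 1 + (F a b D).P v 0 1) - h ((F a b D).P v 0 1) -
        h ((F a b D).P v 0 1) = 0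
      have h2 : h ((F a b D).P v 0 1 + (F a b D).P v 0 1) = 2 ^ 2 * h ((F a b D).P v 0 1) := by
        have := quadratic hh.1 ((F a b D).P v 0 1) 2
        rw [two_smul] at this
        exact_mod_cast this
      rw [h2, h0]
      ring
    · intro hr
      exact h1.2 hr

end Pool.Agent.Q1.SH
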