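import Mathlib

/-!
# The number of the divisors of a squarefree number
-/

set_option autoImplicit false

namespace Pool.Agent.Q1.SH

open Finset

/-- The number of the divisors of a squarefree number. -/
theorem card_divisors_le {ε : ℝ} (hε : 0 < ε) : ∃ C : ℝ, 0 ≤ C ∧ ∀ t : ℕ, Squarefree t →
    (t.divisors.card : ℝ) ≤ C * (t : ℝ) ^ ε := by
  classical
  obtain ⟨N, hN⟩ := exists_nat_ge ((2 : ℝ) ^ (1 / ε))
  refine ⟨2 ^ N, by positivity, fun t ht => ?_⟩
  have ht0 : t ≠ 0 := ht.ne_zero
  have h1 : (t.divisors.card : ℝ) ≤ ∏ p ∈ t.primeFactors, (2 : ℝ) := by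
    rw [Nat.card_divisors ht0, Nat.cast_prod]
    refine Finset.prod_le_prod (fun p _ => Nat.cast_nonneg _) fun p _ => ?_
    have := ht.natFactorization_le_one p
    have h2 : t.factorization p + 1 ≤ 2 := by omega
    exact_mod_cast h2
  have h2 : ∀ p ∈ t.primeFactors, (2 : ℝ) ≤ (if p < N then (2 : ℝ) else 1) * (p : ℝ) ^ ε := by
    intro p hp
    have hp' := Nat.prime_of_mem_primeFactors hp
    have hp1 : (1 : ℝ) ≤ p := by exact_mod_cast hp'.one_le
    split_ifs with h
    · have : (1 : ℝ) ≤ (p : ℝ) ^ ε := Real.one_le_rpow hp1 hε.le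
      linarith
    · rw [one_mul]
      have h3 : (2 : ℝ) ^ (1 / ε) ≤ p := hN.trans (by exact_mod_cast not_lt.1 h)
      calc (2 : ℝ) = ((2 : ℝ) ^ (1 / ε)) ^ ε := by
            rw [← Real.rpow_mul (by norm_num), one_div, inv_mul_cancel₀ hε.ne', Real.rpow_one]
        _ ≤ (p : ℝ) ^ ε := Real.rpow_le_rpow (by positivity) h3 hε.le
  refine h1.trans ((Finset.prod_le_prod (fun _ _ => by norm_num) h2).trans ?_)
  rw [Finset.prod_mul_distrib]
  have h3 : ∏ p ∈ t.primeFactors, (p : ℝ) ^ ε = (t : ℝ) ^ ε := by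
    rw [Real.finsetProd_rpow _ _ (fun p _ => Nat.cast_nonneg p), ← Nat.cast_prod,
      Nat.prod_primeFactors_of_squarefree ht]
  have h4 : ∏ p ∈ t.primeFactors, (if p < N then (2 : ℝ) else 1) ≤ 2 ^ N := by
    rw [Finset.prod_ite, Finset.prod_const, Finset.prod_const_one, mul_one]
    refine pow_le_pow_right₀ (by norm_num) ?_
    calc (t.primeFactors.filter (fun p => p < N)).card ≤ (Finset.range N).card := by
          refine Finset.card_le_card fun p hp => ?_
          rw [Finset.mem_range]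
          exact (Finset.mem_filter.1 hp).2
      _ = N := Finset.card_range N
  rw [h3]
  exact mul_le_mul_of_nonneg_right h4 (by positivity)

end Pool.Agent.Q1.SH
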