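import Pool.Agent.Q1.SH.Sieve3
import Pool.Agent.Q1.SH.Good
import Pool.Agent.Q1.SH.Tau

/-!
# Many twists with a point of nonzero `p`-adic height
-/

set_option autoImplicit false

namespace Pool.Agent.Q1.SH

open Finset Pool.Agent.Y732

section

variable {a b : ℤ} {D M L : ℕ}

/-- the twisting parameter -/
def dd (a b : ℤ) (D : ℕ) (z : ℤ × ℤ) : ℤ := V D z.2 * gg a b (U D z.1) (V D z.2)

/-- the parameters of the family -/
def par (D : ℕ) (z : ℤ × ℤ) : Fin 2 → ℤ := ![U D z.1, 1 + D * z.2]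

lemma par_zero (z : ℤ × ℤ) : par D z 0 = U D z.1 := rfl

lemma par_one (z : ℤ × ℤ) : (D : ℤ) * par D z 1 = V D z.2 := rfl

lemma par_dd (z : ℤ × ℤ) :
    (D : ℤ) * par D z 1 * gg a b (par D z 0) (D * par D z 1) = dd a b D z := rfl

lemma par_inj (hD : 1 ≤ D) : Function.Injective (par D) := by
  rintro ⟨m, n⟩ ⟨m', n'⟩ h
  have hDz : (D : ℤ) ≠ 0 := by exact_mod_cast (by omega : D ≠ 0)
  have h0 : U D m = U D m' := congrFun h 0
  have h1 : 1 + (D : ℤ) * n = 1 + D * n' := congrFun h 1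
  simp only [U] at h0
  have e1 : m = m' := mul_left_cancel₀ hDz (by linarith)
  have e2 : n = n' := mul_left_cancel₀ hDz (by linarith)
  rw [e1, e2]

lemma ok_marked (hab : 4 * a ^ 3 + 27 * b ^ 2 ≠ 0) (hD : Hyp a b D) {z : ℤ × ℤ}
    (hz : Ok a b D z) : (F a b D).Marked (par D z) := by
  apply F_marked hab
  · have h2 : 2 ∣ D := (by norm_num : 2 ∣ 6).trans hD.six
    exact_mod_cast h2
  · intro ℓ hℓ h
    exact_mod_cast hD.bad ℓ hℓ h
  · exact hz.1
  · exact hz.2.ne_zero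

/-- the primes up to `Y` -/
noncomputable def PS (Y : ℝ) : Finset ℕ := (Icc 5 ⌊Y⌋₊).filter Nat.Prime

/-- the exceptional parameters -/
def Exc (a b : ℤ) (D : ℕ) (Y : ℝ) (z : ℤ × ℤ) : Prop :=
  (F a b D).Marked (par D z) ∧ ∃ p ∈ PS Y, ∃ _ : Fact p.Prime,
    IsOrdinaryW p ((F a b D).curve (par D z)) ∧ ¬ (F a b D).NonDeg (par D z) p

lemma PS_sum {Y : ℝ} (hY : 0 ≤ Y) : ∑ p ∈ PS Y, (p : ℝ) ^ 4 ≤ Y ^ 5 := by
  have h1 : ∀ p ∈ PS Y, (p : ℝ) ^ 4 ≤ Y ^ 4 := by
    intro p hp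
    rw [PS, mem_filter, mem_Icc] at hp
    have : (p : ℝ) ≤ Y := (Nat.le_floor_iff hY).1 hp.1.2
    gcongr
  have h2 : ((PS Y).card : ℝ) ≤ Y := by
    have h3 : (PS Y).card ≤ ⌊Y⌋₊ := by
      refine (card_le_card (filter_subset _ _)).trans ?_
      rw [Nat.card_Icc]
      omega
    exact (by exact_mod_cast h3 : ((PS Y).card : ℝ) ≤ (⌊Y⌋₊ : ℝ)).trans (Nat.floor_le hY)
  calc ∑ p ∈ PS Y, (p : ℝ) ^ 4 ≤ ∑ _p ∈ PS Y, Y ^ 4 := sum_le_sum h1
    _ = (PS Y).card * Y ^ 4 := by rw [sum_const, nsmul_eq_mul]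
    _ ≤ Y * Y ^ 4 := mul_le_mul_of_nonneg_right h2 (by positivity)
    _ = Y ^ 5 := by ring

open scoped Classical in
/-- the number of the exceptional parameters -/
theorem exc_card (hD : Hyp a b D) (hL : 4 * D * (a.natAbs + b.natAbs + 1) * L ≤ M) (hM : 1 ≤ M)
    {Y : ℝ} (hY : 0 ≤ Y) :
    (((Box M L).filter (Exc a b D Y)).card : ℝ) ≤ 48 * D * M * Y ^ 5 := by
  have hDpos := hD.pos
  have hLM : L ≤ M := by
    have : 1 * L ≤ 4 * D * (a.natAbs + b.natAbs + 1) * L := by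
      apply Nat.mul_le_mul_right
      have : 0 < 4 * D * (a.natAbs + b.natAbs + 1) := by positivity
      omega
    omega
  have hN : ∀ l : Fin 2, D * L + 1 ≤ (![2 * D * M + 1, D * L + 1] : Fin 2 → ℕ) l := by
    intro l
    fin_cases l
    · change D * L + 1 ≤ 2 * D * M + 1
      have : D * L ≤ D * M := Nat.mul_le_mul_left _ hLM
      nlinarith
    · exact le_refl _
  have h := family_card (F a b D) one_pos (by rw [F_K]; norm_num) (PS Y)
    (fun p hp => by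
      rw [PS, mem_filter, mem_Icc] at hp
      exact ⟨hp.2, hp.1.1⟩) ![0, 0] ![2 * D * M + 1, D * L + 1] (D * L + 1) hN
  rw [F_K] at h
  set T := ((Fintype.piFinset fun l =>
      Ico ((![0, 0] : Fin 2 → ℤ) l) ((![0, 0] : Fin 2 → ℤ) l +
        ((![2 * D * M + 1, D * L + 1] : Fin 2 → ℕ) l : ℕ))).filter fun v =>
      (F a b D).Marked v ∧ ∃ p ∈ PS Y, ∃ _ : Fact p.Prime,
        IsOrdinaryW p ((F a b D).curve v) ∧ ¬ (F a b D).NonDeg v p) with hT
  have h1 : ((Box M L).filter (Exc a b D Y)).card ≤ T.card := by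
    apply card_le_card_of_injOn (par D) _ (par_inj hDpos).injOn
    intro z hz
    rw [mem_coe, mem_filter] at hz
    obtain ⟨hB, hE⟩ := hz
    rw [hT, mem_coe, mem_filter, Fintype.mem_piFinset]
    refine ⟨?_, hE⟩
    rw [Box, mem_product, mem_Ico, mem_Ico] at hB
    obtain ⟨⟨m1, m2⟩, m3, m4⟩ := hB
    have m4' : z.2 < L := by simpa using m4
    obtain ⟨s1, s2, s3⟩ := sizes (a := a) (b := b) hD.pos hL m1 m2 m3 m4'
    have hDz : (1 : ℤ) ≤ D := by exact_mod_cast hDpos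
    have hw : 1 + (D : ℤ) * z.2 ≤ D * L := by nlinarith
    have hw0 : 0 < 1 + (D : ℤ) * z.2 := by nlinarith
    have hMz : (0 : ℤ) ≤ M := by positivity
    intro l
    rw [mem_Ico]
    fin_cases l
    · change (0 : ℤ) ≤ U D z.1 ∧ U D z.1 < 0 + ((2 * D * M + 1 : ℕ) : ℤ)
      push_cast
      rw [U] at s3 ⊢
      constructor
      · nlinarith
      · linarith
    · change (0 : ℤ) ≤ 1 + D * z.2 ∧ 1 + D * z.2 < 0 + ((D * L + 1 : ℕ) : ℤ)
      push_cast
      constructor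
      · linarith
      · linarith
  have hr : (((D * L + 1 : ℕ) : ℝ)) ^ ((1 : ℝ) / ((1 : ℕ) : ℝ)) = D * L + 1 := by
    push_cast
    rw [div_one, Real.rpow_one]
  rw [hr] at h
  have h2 : (∏ l : Fin 2, ((![2 * D * M + 1, D * L + 1] : Fin 2 → ℕ) l : ℝ)) =
      (2 * D * M + 1) * (D * L + 1) := by
    rw [Fin.prod_univ_two]
    simp
  rw [h2] at h
  have h3 : (T.card : ℝ) ≤ 16 * (∑ p ∈ PS Y, (p : ℝ) ^ 4) * (2 * D * M + 1) := by
    have hpos : (0 : ℝ) < D * L + 1 := by positivity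
    have h4 : (T.card : ℝ) * (D * L + 1) ≤
        (16 * (∑ p ∈ PS Y, (p : ℝ) ^ 4) * (2 * D * M + 1)) * (D * L + 1) := by
      refine h.trans (le_of_eq ?_)
      norm_num
      ring
    exact le_of_mul_le_mul_right h4 hpos
  have hDr : (1 : ℝ) ≤ D := by exact_mod_cast hDpos
  have hMr : (1 : ℝ) ≤ M := by exact_mod_cast hM
  have hDM : (1 : ℝ) ≤ D * M := by nlinarith
  calc (((Box M L).filter (Exc a b D Y)).card : ℝ) ≤ T.card := by exact_mod_cast h1
    _ ≤ _ := h3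
    _ ≤ 16 * Y ^ 5 * (3 * (D * M)) := by
        apply mul_le_mul _ (by linarith) (by positivity) (by positivity)
        exact mul_le_mul_of_nonneg_left (PS_sum hY) (by norm_num)
    _ = _ := by ring

lemma dd_size (hD : Hyp a b D) (hL : 4 * D * (a.natAbs + b.natAbs + 1) * L ≤ M) {z : ℤ × ℤ}
    (hz : z ∈ Box M L) : 0 < dd a b D z ∧ dd a b D z ≤ 8 * D ^ 4 * M ^ 4 := by
  rw [Box, mem_product, mem_Ico, mem_Ico] at hz
  obtain ⟨⟨m1, m2⟩, m3, m4⟩ := hz
  have m4' : z.2 < L := by simpa using m4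
  obtain ⟨s1, s2, s3⟩ := sizes (a := a) (b := b) hD.pos hL m1 m2 m3 m4'
  have hgs := g_size (a := a) (b := b) s1 s2
  have ha := abs_nonneg a
  have hb := abs_nonneg b
  have h4 : 4 * V D z.2 ≤ U D z.1 := by
    nlinarith [mul_nonneg ha s1.le, mul_nonneg hb s1.le]
  have hu0 : 0 < U D z.1 := by linarith
  have hu3 := pow_pos hu0 3
  have hg0 : 0 < gg a b (U D z.1) (V D z.2) := by linarith [hgs.1]
  refine ⟨mul_pos s1 hg0, ?_⟩
  rw [dd]
  have h5 : (4 * V D z.2) * gg a b (U D z.1) (V D z.2) ≤ U D z.1 * (2 * U D z.1 ^ 3) :=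
    mul_le_mul h4 hgs.2 hg0.le hu0.le
  have h6 : U D z.1 ^ 4 ≤ (2 * D * M) ^ 4 := pow_le_pow_left₀ hu0.le s3 4
  have h7 : (2 * (D : ℤ) * M) ^ 4 = 16 * D ^ 4 * M ^ 4 := by ring
  nlinarith

lemma fiber_inj (hD : Hyp a b D) (hL : 4 * D * (a.natAbs + b.natAbs + 1) * L ≤ M) {z z' : ℤ × ℤ}
    (hz : z ∈ Box M L) (hz' : z' ∈ Box M L) (h : dd a b D z = dd a b D z')
    (h2 : (1 + (D : ℤ) * z.2).natAbs = (1 + (D : ℤ) * z'.2).natAbs) : z = z' := by
  rw [Box, mem_product, mem_Ico, mem_Ico] at hz hz'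
  obtain ⟨⟨m1, m2⟩, m3, m4⟩ := hz
  obtain ⟨⟨m1', m2'⟩, m3', m4'⟩ := hz'
  obtain ⟨s1, s2, s3⟩ := sizes (a := a) (b := b) hD.pos hL m1 m2 m3 (by simpa using m4)
  obtain ⟨s1', s2', s3'⟩ := sizes (a := a) (b := b) hD.pos hL m1' m2' m3' (by simpa using m4')
  have hDz : (1 : ℤ) ≤ D := by exact_mod_cast hD.pos
  have hw0 : 0 < 1 + (D : ℤ) * z.2 := by nlinarith
  have hw0' : 0 < 1 + (D : ℤ) * z'.2 := by nlinarith
  have e2 : z.2 = z'.2 := by
    have h3 : (1 + (D : ℤ) * z.2) = (1 + (D : ℤ) * z'.2) := by omega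
    exact mul_left_cancel₀ (by omega : (D : ℤ) ≠ 0) (by linarith)
  have hV : V D z.2 = V D z'.2 := by rw [e2]
  rw [dd, dd, hV] at h
  rw [hV] at s2
  have h5 := mul_left_cancel₀ s1'.ne' h
  have h6 := g_inj s1' s2 s2' h5
  simp only [U] at h6
  have e1 : z.1 = z'.1 := mul_left_cancel₀ (by omega : (D : ℤ) ≠ 0) (by linarith)
  exact Prod.ext e1 e2

open scoped Classical in
/-- the number of the good twists -/
theorem twist_card (hab : 4 * a ^ 3 + 27 * b ^ 2 ≠ 0) (hD : Hyp a b D)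
    (hL : 4 * D * (a.natAbs + b.natAbs + 1) * L ≤ M) (hM : 1 ≤ M) {X Y : ℝ} (hY : 0 ≤ Y)
    (hX : 8 * (D : ℝ) ^ 4 * M ^ 4 ≤ X) (τ : ℝ) (hτ0 : 0 ≤ τ)
    (hτ : ∀ t : ℕ, Squarefree t → (t : ℝ) ≤ X → (t.divisors.card : ℝ) ≤ τ) :
    (M : ℝ) * L / 4 - 7000 * D ^ 4 * (M * √M) - 48 * D * M * Y ^ 5 ≤
      τ * (((Icc 1 ⌊X⌋).filter fun d : ℤ => Squarefree d ∧ Good (Tw a b d) Y).card : ℝ) := by
  set G := (Box M L).filter (fun z => Ok a b D z ∧ ¬ Exc a b D Y z) with hG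
  have h1 := ok_card hD hL hM
  have h2 := exc_card hD hL hM hY
  have h3 : (((Box M L).filter (Ok a b D)).card : ℝ) ≤
      G.card + (((Box M L).filter (Exc a b D Y)).card : ℝ) := by
    have h4 : (Box M L).filter (Ok a b D) ⊆ G ∪ (Box M L).filter (Exc a b D Y) := by
      intro z hz
      rw [mem_filter] at hz
      rw [mem_union, hG, mem_filter, mem_filter]
      by_cases hE : Exc a b D Y z
      · exact Or.inr ⟨hz.1, hE⟩
      · exact Or.inl ⟨hz.1, hz.2, hE⟩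
    have h5 := (card_le_card h4).trans (card_union_le _ _)
    exact_mod_cast h5
  set I := G.image (dd a b D) with hI
  have h6 : (G.card : ℝ) ≤ τ * I.card := by
    rw [card_eq_sum_card_image (dd a b D) G]
    push_cast
    calc ∑ d ∈ I, ((G.filter fun z => dd a b D z = d).card : ℝ) ≤ ∑ _d ∈ I, τ := by
          refine sum_le_sum fun d hd => ?_
          rw [hI, mem_image] at hd
          obtain ⟨z₀, hz₀, hd0⟩ := hd
          rw [hG, mem_filter] at hz₀
          have hs := dd_size hD hL hz₀.1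
          have hsq : Squarefree d.natAbs := by
            rw [Int.squarefree_natAbs, ← hd0]
            exact hz₀.2.1.2
          have hdX : ((d.natAbs : ℕ) : ℝ) ≤ X := by
            have h7 : d ≤ 8 * D ^ 4 * M ^ 4 := by
              rw [← hd0]
              exact hs.2
            have h8 : ((d.natAbs : ℕ) : ℤ) ≤ 8 * D ^ 4 * M ^ 4 := by
              rw [Int.natCast_natAbs, abs_of_pos (by rw [← hd0]; exact hs.1)]
              exact h7
            have h9 : d.natAbs ≤ 8 * D ^ 4 * M ^ 4 := by exact_mod_cast h8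
            have h10 : ((d.natAbs : ℕ) : ℝ) ≤ ((8 * D ^ 4 * M ^ 4 : ℕ) : ℝ) := by
              exact_mod_cast h9
            refine h10.trans (le_trans (le_of_eq ?_) hX)
            push_cast
            ring
          refine le_trans ?_ (hτ _ hsq hdX)
          have h10 : (G.filter fun z => dd a b D z = d).card ≤ d.natAbs.divisors.card := by
            apply card_le_card_of_injOn (fun z => (1 + (D : ℤ) * z.2).natAbs)
            · intro z hz
              rw [mem_coe, mem_filter] at hz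
              rw [mem_coe, Nat.mem_divisors]
              refine ⟨?_, hsq.ne_zero⟩
              rw [Int.natAbs_dvd_natAbs, ← hz.2, dd, V]
              exact ⟨D * gg a b (U D z.1) (D * (1 + D * z.2)), by ring⟩
            · intro z hz z' hz' h
              rw [mem_coe, mem_filter, hG, mem_filter] at hz hz'
              exact fiber_inj hD hL hz.1.1 hz'.1.1 (hz.2.trans hz'.2.symm) h
          exact_mod_cast h10
      _ = τ * I.card := by
          rw [sum_const, nsmul_eq_mul, mul_comm]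
  have h7 : I ⊆ (Icc 1 ⌊X⌋).filter fun d : ℤ => Squarefree d ∧ Good (Tw a b d) Y := by
    intro d hd
    rw [hI, mem_image] at hd
    obtain ⟨z, hz, rfl⟩ := hd
    rw [hG, mem_filter] at hz
    obtain ⟨hB, hOk, hE⟩ := hz
    have hs := dd_size hD hL hB
    rw [mem_filter, mem_Icc]
    refine ⟨⟨by omega, ?_⟩, hOk.2, ?_⟩
    · rw [Int.le_floor]
      have h9 : ((dd a b D z : ℤ) : ℝ) ≤ ((8 * D ^ 4 * M ^ 4 : ℤ) : ℝ) := by exact_mod_cast hs.2
      push_cast at h9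
      exact h9.trans hX
    · rw [← par_dd]
      apply good_of_nonDeg (ok_marked hab hD hOk)
      intro p _ hp5 hpY ho
      by_contra hN
      apply hE
      refine ⟨ok_marked hab hD hOk, p, ?_, ‹_›, ho, hN⟩
      rw [PS, mem_filter, mem_Icc]
      exact ⟨⟨hp5, Nat.le_floor hpY⟩, Fact.out⟩
  have h8 : (I.card : ℝ) ≤
      (((Icc 1 ⌊X⌋).filter fun d : ℤ => Squarefree d ∧ Good (Tw a b d) Y).card : ℝ) := by
    exact_mod_cast card_le_card h7
  have h9 := mul_le_mul_of_nonneg_left h8 hτ0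
  linarith

end

open Filter in
open scoped Classical in
/-- many good twists -/
theorem many (a b : ℤ) (hab : 4 * a ^ 3 + 27 * b ^ 2 ≠ 0) (ε : ℝ) (hε : 0 < ε) :
    ∀ᶠ X : ℝ in atTop, X ^ (1 / 2 - ε) ≤
      (((Icc 1 ⌊X⌋).filter fun d : ℤ => Squarefree d ∧
        Good (Tw a b d) (X ^ (1 / 20 - ε))).card : ℝ) := by
  obtain ⟨D, hD⟩ := exists_hyp hab
  obtain ⟨C, hC0, hC⟩ := card_divisors_le (ε := ε / 2) (by positivity)
  have hDpos := hD.pos
  have hDr : (1 : ℝ) ≤ D := by exact_mod_cast hDpos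
  set K : ℕ := 4 * D * (a.natAbs + b.natAbs + 1) with hK
  have hK0 : 0 < K := by positivity
  have hKr : (0 : ℝ) < K := by exact_mod_cast hK0
  set c : ℝ := 1 / (128 * D ^ 2 * K) with hc
  have hc0 : 0 < c := by positivity
  have hneg : ∀ δ : ℝ, 0 < δ → ∀ η : ℝ, 0 < η → ∀ᶠ X : ℝ in atTop, X ^ (-δ) ≤ η := by
    intro δ hδ η hη
    exact (tendsto_rpow_neg_atTop hδ).eventually_le_const hη
  have hpos : ∀ δ : ℝ, 0 < δ → ∀ η : ℝ, ∀ᶠ X : ℝ in atTop, η ≤ X ^ δ := by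
    intro δ hδ η
    exact (tendsto_rpow_atTop hδ).eventually_ge_atTop η
  filter_upwards [eventually_ge_atTop (1 : ℝ), hpos (1 / 4) (by norm_num) (4 * D),
    hpos (1 / 4) (by norm_num) (8 * D * K), hpos (1 / 8) (by norm_num) (28000 * D ^ 4 / c),
    hneg (5 * ε) (by positivity) (c / 96) (by positivity),
    hneg (ε / 2) (by positivity) (c / (2 * (C + 1))) (by positivity)] with X h1 h2 h3 h4 h5 h6
  have hX0 : 0 < X := by linarith
  set x : ℝ := X ^ ((1 : ℝ) / 4) with hx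
  have hx0 : 0 < x := Real.rpow_pos_of_pos hX0 _
  have hx4 : x ^ 4 = X := by
    rw [hx, ← Real.rpow_natCast, ← Real.rpow_mul hX0.le]
    norm_num
  have hxs : √x = X ^ ((1 : ℝ) / 8) := by
    rw [Real.sqrt_eq_rpow, hx, ← Real.rpow_mul hX0.le]
    norm_num
  set M : ℕ := ⌊x / (2 * D)⌋₊ with hM
  set L : ℕ := M / K with hL
  have hM1 : (M : ℝ) ≤ x / (2 * D) := Nat.floor_le (by positivity)
  have hM2 : x / (4 * D) ≤ M := by
    have h7 : x / (2 * D) < M + 1 := Nat.lt_floor_add_one _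
    have h8 : 1 ≤ x / (4 * D) := by
      rw [le_div_iff₀ (by positivity)]
      linarith
    have h9 : x / (2 * D) = x / (4 * D) + x / (4 * D) := by
      field_simp
      ring
    linarith
  have hM3 : 1 ≤ M := by
    have h8 : 1 ≤ x / (4 * D) := by
      rw [le_div_iff₀ (by positivity)]
      linarith
    exact_mod_cast h8.trans hM2
  have hM4 : (M : ℝ) ≤ x := by
    refine hM1.trans ?_
    rw [div_le_iff₀ (by positivity)]
    nlinarith
  have hM5 : 2 * (K : ℝ) ≤ M := by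
    refine le_trans ?_ hM2
    rw [le_div_iff₀ (by positivity)]
    linarith
  have hL1 : (M : ℝ) / (2 * K) ≤ L := by
    have h7 : (M : ℝ) / K < L + 1 := by
      have h8 : M < K * (M / K + 1) := Nat.lt_mul_div_succ M hK0
      rw [div_lt_iff₀ hKr, hL]
      have h9 : (M : ℝ) < ((K * (M / K + 1) : ℕ) : ℝ) := by exact_mod_cast h8
      push_cast at h9
      linarith
    have h8 : 1 ≤ (M : ℝ) / (2 * K) := by
      rw [le_div_iff₀ (by positivity)]
      linarith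
    have h9 : (M : ℝ) / K = M / (2 * K) + M / (2 * K) := by
      field_simp
      ring
    linarith
  have hKL : 4 * D * (a.natAbs + b.natAbs + 1) * L ≤ M := by
    rw [← hK]
    exact Nat.mul_div_le M K
  have hXs : 8 * (D : ℝ) ^ 4 * M ^ 4 ≤ X := by
    have h7 : (M : ℝ) ^ 4 ≤ (x / (2 * D)) ^ 4 := by gcongr
    calc 8 * (D : ℝ) ^ 4 * M ^ 4 ≤ 8 * (D : ℝ) ^ 4 * (x / (2 * D)) ^ 4 := by gcongr
      _ = x ^ 4 / 2 := by
        field_simp
        ring
      _ ≤ X := by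
        rw [hx4]
        linarith
  have hfin := twist_card (X := X) (Y := X ^ (1 / 20 - ε)) hab hD hKL hM3 (by positivity) hXs
    ((C + 1) * X ^ (ε / 2)) (by positivity) (by
      intro t ht htX
      refine (hC t ht).trans ?_
      have h7 : (t : ℝ) ^ (ε / 2) ≤ X ^ (ε / 2) :=
        Real.rpow_le_rpow (by positivity) htX (by positivity)
      calc C * (t : ℝ) ^ (ε / 2) ≤ (C + 1) * (t : ℝ) ^ (ε / 2) := by
            apply mul_le_mul_of_nonneg_right (by linarith) (by positivity)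
        _ ≤ _ := mul_le_mul_of_nonneg_left h7 (by positivity))
  set N : ℝ := (((Icc 1 ⌊X⌋).filter fun d : ℤ => Squarefree d ∧
        Good (Tw a b d) (X ^ (1 / 20 - ε))).card : ℝ) with hN
  -- the main term
  have m1 : c * x ^ 2 ≤ (M : ℝ) * L / 4 := by
    have h7 : (M : ℝ) * (M / (2 * K)) ≤ M * L := mul_le_mul_of_nonneg_left hL1 (by positivity)
    have h8 : (x / (4 * D)) ^ 2 ≤ (M : ℝ) ^ 2 := by gcongr
    have h9 : (M : ℝ) * (M / (2 * K)) = M ^ 2 / (2 * K) := by ring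
    have h10 : (x / (4 * D)) ^ 2 / (2 * K) ≤ (M : ℝ) ^ 2 / (2 * K) := by gcongr
    have h11 : (x / (4 * D)) ^ 2 / (2 * K) = 4 * (c * x ^ 2) := by
      rw [hc]
      field_simp
      ring
    linarith
  have m2 : 7000 * (D : ℝ) ^ 4 * (M * √M) ≤ c / 4 * x ^ 2 := by
    have h7 : √(M : ℝ) ≤ √x := Real.sqrt_le_sqrt hM4
    have h8 : (M : ℝ) * √M ≤ x * √x := mul_le_mul hM4 h7 (by positivity) hx0.le
    have h9 : 28000 * (D : ℝ) ^ 4 ≤ c * √x := by
      rw [hxs]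
      rw [div_le_iff₀ hc0] at h4
      linarith
    have h10 := Real.mul_self_sqrt hx0.le
    calc 7000 * (D : ℝ) ^ 4 * (M * √M) ≤ 7000 * (D : ℝ) ^ 4 * (x * √x) := by gcongr
      _ = (28000 * (D : ℝ) ^ 4) / 4 * (x * √x) := by ring
      _ ≤ (c * √x) / 4 * (x * √x) := by gcongr
      _ = c / 4 * (x * (√x * √x)) := by ring
      _ = c / 4 * x ^ 2 := by rw [h10]; ring
  have m3 : 48 * (D : ℝ) * M * (X ^ (1 / 20 - ε)) ^ 5 ≤ c / 4 * x ^ 2 := by
    have h7 : (X ^ (1 / 20 - ε)) ^ 5 = x * X ^ (-(5 * ε)) := by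
      rw [hx, ← Real.rpow_natCast, ← Real.rpow_mul hX0.le, ← Real.rpow_add hX0]
      congr 1
      push_cast
      ring
    rw [h7]
    have h8 : (D : ℝ) * M ≤ x / 2 := by
      calc (D : ℝ) * M ≤ D * (x / (2 * D)) := by gcongr
        _ = x / 2 := by field_simp
    calc 48 * (D : ℝ) * M * (x * X ^ (-(5 * ε))) = 48 * (D * M) * (x * X ^ (-(5 * ε))) := by ring
      _ ≤ 48 * (x / 2) * (x * (c / 96)) := by gcongr
      _ = c / 4 * x ^ 2 := by ring
  have m4 : c / 2 * x ^ 2 ≤ (C + 1) * X ^ (ε / 2) * N := by linarith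
  have m5 : X ^ (1 / 2 - ε) * ((C + 1) * X ^ (ε / 2)) ≤ c / 2 * x ^ 2 := by
    have h7 : x ^ 2 = X ^ ((1 : ℝ) / 2) := by
      rw [hx, ← Real.rpow_natCast, ← Real.rpow_mul hX0.le]
      norm_num
    have h8 : X ^ (1 / 2 - ε) * X ^ (ε / 2) = X ^ ((1 : ℝ) / 2) * X ^ (-(ε / 2)) := by
      rw [← Real.rpow_add hX0, ← Real.rpow_add hX0]
      congr 1
      ring
    calc X ^ (1 / 2 - ε) * ((C + 1) * X ^ (ε / 2))
        = (C + 1) * (X ^ (1 / 2 - ε) * X ^ (ε / 2)) := by ring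
      _ = (C + 1) * (x ^ 2 * X ^ (-(ε / 2))) := by rw [h8, h7]
      _ ≤ (C + 1) * (x ^ 2 * (c / (2 * (C + 1)))) := by gcongr
      _ = c / 2 * x ^ 2 := by
        field_simp
  have m6 : 0 < (C + 1) * X ^ (ε / 2) := by positivity
  have m7 : X ^ (1 / 2 - ε) * ((C + 1) * X ^ (ε / 2)) ≤ N * ((C + 1) * X ^ (ε / 2)) := by linarith
  exact le_of_mul_le_mul_right m7 m6

end Pool.Agent.Q1.SH
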