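import Pool.Agent.Y732.LineCount
import Pool.Agent.Q1.SH.Fam

/-!
# Pairs `(u, v)` with `v g(u, v)` squarefree
-/

set_option autoImplicit false

namespace Pool.Agent.Q1.SH

open Finset Pool.Agent.Y732

lemma one_class {c : ℤ} {N q : ℕ} (hq : 0 < q) {S : Finset ℤ} (hS : S ⊆ Ico c (c + N))
    (h : ∀ m ∈ S, ∀ m' ∈ S, (q : ℤ) ∣ m - m') : (S.card : ℝ) ≤ N / q + 1 := by
  rcases S.eq_empty_or_nonempty with rfl | ⟨z, hz⟩
  · rw [card_empty]
    push_cast
    positivity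
  · have h1 : S ⊆ (Ico c (c + N)).filter (fun y => y ≡ z [ZMOD q]) := by
      intro y hy
      rw [mem_filter]
      exact ⟨hS hy, (Int.modEq_iff_dvd.2 (h z hz y hy))⟩
    have h2 := class_card_le c N q hq z
    have h3 : (S.card : ℚ) ≤ N / q + 1 := le_trans (by exact_mod_cast card_le_card h1) h2
    have h4 : ((S.card : ℚ) : ℝ) ≤ ((N / q + 1 : ℚ) : ℝ) := by exact_mod_cast h3
    push_cast at h4
    exact h4

/-- roots modulo `ℓ²` which agree modulo `ℓ` agree -/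
lemma hensel {a b : ℤ} {ℓ : ℕ} (hℓ : ℓ.Prime) (hD : ¬ (ℓ : ℤ) ∣ 4 * a ^ 3 + 27 * b ^ 2)
    {u v u' v' : ℤ} (hv : ¬ (ℓ : ℤ) ∣ v) (hv' : ¬ (ℓ : ℤ) ∣ v')
    (hg : (ℓ : ℤ) ^ 2 ∣ gg a b u v) (hg' : (ℓ : ℤ) ^ 2 ∣ gg a b u' v')
    (h : (ℓ : ℤ) ∣ u * v' - u' * v) : (ℓ : ℤ) ^ 2 ∣ u * v' - u' * v := by
  have hp := Nat.prime_iff_prime_int.1 hℓ
  have hg1 : (ℓ : ℤ) ∣ gg a b u v := (dvd_pow_self _ two_ne_zero).trans hg
  have h5 : ¬ (ℓ : ℤ) ∣ 3 * u ^ 2 + a * v ^ 2 := by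
    intro h5
    have h6 : (ℓ : ℤ) ∣ v ^ 6 * (4 * a ^ 3 + 27 * b ^ 2) := by
      have e : v ^ 6 * (4 * a ^ 3 + 27 * b ^ 2) =
          gg a b u v * (-18 * (a * v ^ 2) * u + 27 * (b * v ^ 3)) +
          (3 * u ^ 2 + a * v ^ 2) * (6 * (a * v ^ 2) * u ^ 2 - 9 * (b * v ^ 3) * u +
            4 * (a * v ^ 2) ^ 2) := by
        simp only [gg]
        ring
      rw [e]
      exact dvd_add (hg1.mul_right _) (h5.mul_right _)
    rcases hp.dvd_or_dvd h6 with h | h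
    · exact hv (prime_dvd_pow hp h)
    · exact hD h
  have h7 : (ℓ : ℤ) ^ 2 ∣ (u * v' - u' * v) *
      ((u * v') ^ 2 + (u * v') * (u' * v) + (u' * v) ^ 2 + a * (v * v') ^ 2) := by
    have e : (u * v' - u' * v) *
        ((u * v') ^ 2 + (u * v') * (u' * v) + (u' * v) ^ 2 + a * (v * v') ^ 2) =
        gg a b u v * v' ^ 3 - gg a b u' v' * v ^ 3 := by
      simp only [gg]
      ring
    rw [e]
    exact dvd_sub (hg.mul_right _) (hg'.mul_right _)
  have h8 : ¬ (ℓ : ℤ) ∣ (u * v') ^ 2 + (u * v') * (u' * v) + (u' * v) ^ 2 + a * (v * v') ^ 2 := by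
    intro h9
    have h10 : (ℓ : ℤ) ∣ v' ^ 2 * (3 * u ^ 2 + a * v ^ 2) := by
      have e : v' ^ 2 * (3 * u ^ 2 + a * v ^ 2) =
          ((u * v') ^ 2 + (u * v') * (u' * v) + (u' * v) ^ 2 + a * (v * v') ^ 2) +
          (u * v' - u' * v) * (2 * (u * v') + u' * v) := by ring
      rw [e]
      exact dvd_add h9 (h.mul_right _)
    rcases hp.dvd_or_dvd h10 with h | h
    · exact hv' (prime_dvd_pow hp h)
    · exact h5 h
  have hcop : IsCoprime ((ℓ : ℤ) ^ 2)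
      ((u * v') ^ 2 + (u * v') * (u' * v) + (u' * v) ^ 2 + a * (v * v') ^ 2) :=
    ((hp.coprime_iff_not_dvd).2 h8).pow_left
  exact hcop.dvd_of_dvd_mul_right h7

/-- the ratio modulo `ℓ` -/
noncomputable def rat (ℓ : ℕ) [Fact ℓ.Prime] (u v : ℤ) : ZMod ℓ := (u : ZMod ℓ) / (v : ZMod ℓ)

lemma rat_eq {ℓ : ℕ} [Fact ℓ.Prime] {u v u' v' : ℤ} (hv : ¬ (ℓ : ℤ) ∣ v) (hv' : ¬ (ℓ : ℤ) ∣ v')
    (h : rat ℓ u v = rat ℓ u' v') : (ℓ : ℤ) ∣ u * v' - u' * v := by
  have h1 : (v : ZMod ℓ) ≠ 0 := fun h => hv ((ZMod.intCast_zmod_eq_zero_iff_dvd v ℓ).1 h)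
  have h2 : (v' : ZMod ℓ) ≠ 0 := fun h => hv' ((ZMod.intCast_zmod_eq_zero_iff_dvd v' ℓ).1 h)
  rw [rat, rat, div_eq_div_iff h1 h2] at h
  rw [← ZMod.intCast_zmod_eq_zero_iff_dvd]
  push_cast
  rw [h, sub_self]

open Polynomial in
lemma roots_card (a b : ℤ) {ℓ : ℕ} [Fact ℓ.Prime] {ι : Type*} (S : Finset ι) (u v : ι → ℤ)
    (hv : ∀ i ∈ S, ¬ (ℓ : ℤ) ∣ v i) (hg : ∀ i ∈ S, (ℓ : ℤ) ∣ gg a b (u i) (v i)) :
    (S.image fun i => rat ℓ (u i) (v i)).card ≤ 3 := by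
  classical
  set f : (ZMod ℓ)[X] := X ^ 3 + C (a : ZMod ℓ) * X + C (b : ZMod ℓ) with hf
  have hdeg : f.natDegree = 3 := by
    rw [hf]
    compute_degree!
  have hf0 : f ≠ 0 := by
    intro h
    rw [h, natDegree_zero] at hdeg
    omega
  have h1 : (S.image fun i => rat ℓ (u i) (v i)) ⊆ f.roots.toFinset := by
    intro r hr
    rw [mem_image] at hr
    obtain ⟨i, hi, rfl⟩ := hr
    rw [Multiset.mem_toFinset, mem_roots hf0, IsRoot.def, hf]
    have h1 : (v i : ZMod ℓ) ≠ 0 := fun h =>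
      hv i hi ((ZMod.intCast_zmod_eq_zero_iff_dvd _ ℓ).1 h)
    have h2 := (ZMod.intCast_zmod_eq_zero_iff_dvd _ ℓ).2 (hg i hi)
    rw [gg] at h2
    push_cast at h2
    simp only [eval_add, eval_mul, eval_pow, eval_X, eval_C, rat]
    field_simp
    linear_combination h2
  calc _ ≤ f.roots.toFinset.card := card_le_card h1
    _ ≤ f.roots.card := Multiset.toFinset_card_le _
    _ ≤ f.natDegree := card_roots' f
    _ = 3 := hdeg

/-- at most three times the bound for the classes -/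
lemma three_classes (a b : ℤ) {ℓ : ℕ} (hℓ : ℓ.Prime)
    (hD : ¬ (ℓ : ℤ) ∣ 4 * a ^ 3 + 27 * b ^ 2) {ι : Type*} [DecidableEq ι] (S : Finset ι)
    (u v : ι → ℤ) (hv : ∀ i ∈ S, ¬ (ℓ : ℤ) ∣ v i)
    (hg : ∀ i ∈ S, (ℓ : ℤ) ^ 2 ∣ gg a b (u i) (v i)) (B : ℝ) (hB : 0 ≤ B)
    (h : ∀ T ⊆ S, (∀ i ∈ T, ∀ j ∈ T, (ℓ : ℤ) ^ 2 ∣ u i * v j - u j * v i) → (T.card : ℝ) ≤ B) :
    (S.card : ℝ) ≤ 3 * B := by
  have : Fact ℓ.Prime := ⟨hℓ⟩
  classical
  have h1 := roots_card a b S u v hv fun i hi => (dvd_pow_self _ two_ne_zero).trans (hg i hi)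
  rw [card_eq_sum_card_image (fun i => rat ℓ (u i) (v i)) S]
  push_cast
  calc ∑ r ∈ S.image fun i => rat ℓ (u i) (v i),
        ((S.filter fun i => rat ℓ (u i) (v i) = r).card : ℝ)
      ≤ ∑ r ∈ S.image fun i => rat ℓ (u i) (v i), B := by
        refine sum_le_sum fun r _ => h _ (filter_subset _ _) ?_
        intro i hi j hj
        rw [mem_filter] at hi hj
        exact hensel hℓ hD (hv i hi.1) (hv j hj.1) (hg i hi.1) (hg j hj.1)
          (rat_eq (hv i hi.1) (hv j hj.1) (hi.2.trans hj.2.symm))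
    _ = ((S.image fun i => rat ℓ (u i) (v i)).card : ℝ) * B := by
        rw [sum_const, nsmul_eq_mul]
    _ ≤ 3 * B := mul_le_mul_of_nonneg_right (by exact_mod_cast h1) hB

/-- coprime vectors in a lattice of determinant `q` -/
lemma slopes {q Q H : ℤ} (hQ : 0 ≤ Q) (hq : H ^ 2 ≤ Q * q) {ι : Type*} (T : Finset ι) (u v : ι → ℤ)
    (hinj : ∀ i ∈ T, ∀ j ∈ T, u i = u j → v i = v j → i = j)
    (hv : ∀ i ∈ T, 0 < v i ∧ v i ≤ u i ∧ u i ≤ H ∧ IsCoprime (u i) (v i))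
    (hdet : ∀ i ∈ T, ∀ j ∈ T, q ∣ u i * v j - u j * v i) : (T.card : ℤ) ≤ Q + 1 := by
  have hsub : ∀ i ∈ T, Q * v i / u i ∈ Icc (0 : ℤ) Q := by
    intro i hi
    obtain ⟨h1, h2, -, -⟩ := hv i hi
    have hu : 0 < u i := by linarith
    rw [mem_Icc]
    constructor
    · exact Int.ediv_nonneg (mul_nonneg hQ h1.le) hu.le
    · apply Int.ediv_le_of_le_mul hu
      exact mul_le_mul_of_nonneg_left h2 hQ
  have hi : Set.InjOn (fun i => Q * v i / u i) (T : Set ι) := by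
    intro i hi j hj he
    rw [mem_coe] at hi hj
    obtain ⟨h1, h2, h3, h4⟩ := hv i hi
    obtain ⟨h1', h2', h3', h4'⟩ := hv j hj
    have hu : 0 < u i := by linarith
    have hu' : 0 < u j := by linarith
    simp only at he
    set k := Q * v i / u i with hk
    have e1 : u i * k ≤ Q * v i := Int.mul_ediv_self_le hu.ne'
    have e2 : Q * v i < u i * k + u i := Int.lt_mul_ediv_self_add hu
    have e1' : u j * k ≤ Q * v j := by
      rw [he]
      exact Int.mul_ediv_self_le hu'.ne'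
    have e2' : Q * v j < u j * k + u j := by
      rw [he]
      exact Int.lt_mul_ediv_self_add hu'
    have e3 : Q * (u i * v j - u j * v i) < u i * u j := by nlinarith
    have e4 : -(u i * u j) < Q * (u i * v j - u j * v i) := by nlinarith
    have e5 : u i * u j ≤ Q * q := by
      have : u i * u j ≤ H ^ 2 := by nlinarith
      linarith
    have e6 : u i * v j - u j * v i = 0 := by
      obtain ⟨t, ht⟩ := hdet i hi j hj
      rw [ht] at e3 e4 ⊢
      have hQq : 0 < Q * q := by nlinarith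
      have e7 : Q * (q * t) = (Q * q) * t := by ring
      rw [e7] at e3 e4
      have e8 : t < 1 := by
        by_contra h
        push Not at h
        nlinarith
      have e9 : -1 < t := by
        by_contra h
        push Not at h
        nlinarith
      have : t = 0 := by omega
      rw [this, mul_zero]
    have e7 : u i * v j = u j * v i := by linarith
    have d1 : u i ∣ u j := by
      apply h4.dvd_of_dvd_mul_right
      exact ⟨v j, e7.symm⟩
    have d2 : u j ∣ u i := by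
      apply h4'.dvd_of_dvd_mul_right
      exact ⟨v i, e7⟩
    have e8 : u i = u j := Int.dvd_antisymm hu.le hu'.le d1 d2
    have e9 : v i = v j := by
      rw [e8] at e7
      exact (mul_left_cancel₀ hu'.ne' e7).symm
    exact hinj i hi j hj e8 e9
  have h := card_le_card_of_injOn (fun i => Q * v i / u i) hsub hi
  rw [Int.card_Icc] at h
  omega

end Pool.Agent.Q1.SH
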