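import Pool.Agent.Q1.SH.Sieve

/-!
# Bounds for the bad pairs
-/

set_option autoImplicit false

namespace Pool.Agent.Q1.SH

open Finset Pool.Agent.Y732

/-- `1 + D m` -/
def U (D : ℕ) (m : ℤ) : ℤ := 1 + D * m

/-- `D (1 + D n)` -/
def V (D : ℕ) (n : ℤ) : ℤ := D * (1 + D * n)

/-- the conditions on `D` -/
structure Hyp (a b : ℤ) (D : ℕ) : Prop where
  six : 6 ∣ D
  sq : Squarefree D
  bad : ∀ ℓ : ℕ, ℓ.Prime → (ℓ : ℤ) ∣ 4 * a ^ 3 + 27 * b ^ 2 → ℓ ∣ D

lemma exists_hyp {a b : ℤ} (h : 4 * a ^ 3 + 27 * b ^ 2 ≠ 0) : ∃ D, Hyp a b D := by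
  set N := (6 * (4 * a ^ 3 + 27 * b ^ 2)).natAbs with hN
  have hN0 : N ≠ 0 := Int.natAbs_ne_zero.2 (mul_ne_zero (by norm_num) h)
  refine ⟨∏ p ∈ N.primeFactors, p, ?_, ?_, ?_⟩
  · have h2 : 2 ∣ ∏ p ∈ N.primeFactors, p := by
      apply Finset.dvd_prod_of_mem
      rw [Nat.mem_primeFactors]
      refine ⟨Nat.prime_two, ?_, hN0⟩
      rw [hN, ← Int.natCast_dvd]
      exact Dvd.dvd.mul_right (by norm_num) _
    have h3 : 3 ∣ ∏ p ∈ N.primeFactors, p := by
      apply Finset.dvd_prod_of_mem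
      rw [Nat.mem_primeFactors]
      refine ⟨Nat.prime_three, ?_, hN0⟩
      rw [hN, ← Int.natCast_dvd]
      exact Dvd.dvd.mul_right (by norm_num) _
    exact Nat.Coprime.mul_dvd_of_dvd_of_dvd (by norm_num) h2 h3
  · apply Finset.squarefree_prod_of_pairwise_isCoprime
    · intro p hp q hq hpq
      rw [mem_coe, Nat.mem_primeFactors] at hp hq
      exact Nat.coprime_iff_isRelPrime.1 ((Nat.coprime_primes hp.1 hq.1).2 hpq)
    · intro p hp
      rw [Nat.mem_primeFactors] at hp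
      exact hp.1.squarefree
  · intro ℓ hℓ hd
    apply Finset.dvd_prod_of_mem
    rw [Nat.mem_primeFactors]
    refine ⟨hℓ, ?_, hN0⟩
    rw [hN, ← Int.natCast_dvd]
    exact hd.mul_left _

lemma Hyp.pos {a b : ℤ} {D : ℕ} (h : Hyp a b D) : 1 ≤ D := Nat.pos_of_ne_zero h.sq.ne_zero

lemma sizes {a b : ℤ} {D M L : ℕ} (hD : 1 ≤ D)
    (hL : 4 * D * (a.natAbs + b.natAbs + 1) * L ≤ M) {m n : ℤ}
    (hm : (M : ℤ) ≤ m) (hm2 : m < M + M) (hn : 0 ≤ n) (hn2 : n < L) :
    0 < V D n ∧ 4 * (|a| + |b| + 1) * V D n ≤ U D m ∧ U D m ≤ 2 * D * M := by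
  have hDz : (1 : ℤ) ≤ D := by exact_mod_cast hD
  have hL' : 4 * (D : ℤ) * (|a| + |b| + 1) * L ≤ M := by
    have : ((4 * D * (a.natAbs + b.natAbs + 1) * L : ℕ) : ℤ) ≤ (M : ℤ) := by exact_mod_cast hL
    push_cast at this
    exact this
  have hw : 1 + (D : ℤ) * n ≤ D * L := by nlinarith
  have hw0 : 0 < 1 + (D : ℤ) * n := by nlinarith
  have hs : 0 ≤ |a| + |b| := by positivity
  refine ⟨mul_pos (by linarith) hw0, ?_, ?_⟩
  · rw [V, U]
    have h1 : 4 * (|a| + |b| + 1) * ((D : ℤ) * (1 + D * n)) ≤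
        4 * (|a| + |b| + 1) * ((D : ℤ) * (D * L)) := by
      apply mul_le_mul_of_nonneg_left _ (by linarith)
      exact mul_le_mul_of_nonneg_left hw (by linarith)
    have h2 : 4 * (|a| + |b| + 1) * ((D : ℤ) * (D * L)) = D * (4 * D * (|a| + |b| + 1) * L) := by
      ring
    have h3 : (D : ℤ) * (4 * D * (|a| + |b| + 1) * L) ≤ D * m :=
      mul_le_mul_of_nonneg_left (hL'.trans hm) (by linarith)
    linarith
  · rw [U]
    nlinarith

lemma g_size {a b u v : ℤ} (hv : 0 < v) (h : 4 * (|a| + |b| + 1) * v ≤ u) :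
    u ^ 3 ≤ 2 * gg a b u v ∧ gg a b u v ≤ 2 * u ^ 3 := by
  have ha := abs_nonneg a
  have hb := abs_nonneg b
  have hav : 0 ≤ |a| * v := mul_nonneg ha hv.le
  have hbv : 0 ≤ |b| * v := mul_nonneg hb hv.le
  have h1 : 4 * ((|a| + |b|) * v) ≤ u := by nlinarith
  have h2 : 4 * v ≤ u := by nlinarith
  have hu : 0 < u := by linarith
  have h3 : 4 * ((|a| + |b|) * v) * (u * v) ≤ u * (u * v) :=
    mul_le_mul_of_nonneg_right h1 (by positivity)
  have h4 : u ^ 2 * (4 * v) ≤ u ^ 2 * u := mul_le_mul_of_nonneg_left h2 (by positivity)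
  have h5 : |a * u * v ^ 2 + b * v ^ 3| ≤ (|a| + |b|) * (u * v ^ 2) := by
    calc |a * u * v ^ 2 + b * v ^ 3| ≤ |a * u * v ^ 2| + |b * v ^ 3| := abs_add_le _ _
      _ = |a| * (u * v ^ 2) + |b| * (v * v ^ 2) := by
          rw [abs_mul, abs_mul, abs_mul, abs_of_pos hu, abs_of_pos (pow_pos hv 2),
            abs_of_pos (pow_pos hv 3)]
          ring
      _ ≤ |a| * (u * v ^ 2) + |b| * (u * v ^ 2) := by
          have : v ≤ u := by linarith
          gcongr
      _ = _ := by ring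
  have h6 : 16 * ((|a| + |b|) * (u * v ^ 2)) ≤ u ^ 3 := by nlinarith
  have h7 := abs_le.1 h5
  have hu3 : 0 < u ^ 3 := by positivity
  rw [gg]
  constructor
  · linarith [h7.1]
  · linarith [h7.2]

lemma g_inj {a b u u' v : ℤ} (hv : 0 < v) (h : 4 * (|a| + |b| + 1) * v ≤ u)
    (h' : 4 * (|a| + |b| + 1) * v ≤ u') (he : gg a b u v = gg a b u' v) : u = u' := by
  have ha := abs_nonneg a
  have hb := abs_nonneg b
  have hav : 0 ≤ |a| * v := mul_nonneg ha hv.le
  have hbv : 0 ≤ |b| * v := mul_nonneg hb hv.le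
  have h1 : |a| * v ≤ u := by nlinarith
  have h2 : v ≤ u := by nlinarith
  have h2' : v ≤ u' := by nlinarith
  have hu : 0 < u := by linarith
  have hu' : 0 < u' := by linarith
  have h3 : |a| * v * v ≤ u * u := mul_le_mul h1 h2 hv.le hu.le
  have h4 : -(|a| * v * v) ≤ a * v ^ 2 := by
    have := neg_abs_le a
    nlinarith [mul_pos hv hv]
  have h5 : 0 < u ^ 2 + u * u' + u' ^ 2 + a * v ^ 2 := by nlinarith [mul_pos hu hu']
  have h6 : (u - u') * (u ^ 2 + u * u' + u' ^ 2 + a * v ^ 2) = 0 := by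
    simp only [gg] at he
    linear_combination he
  have := (mul_eq_zero.1 h6).resolve_right h5.ne'
  linarith

/-- the parameters -/
noncomputable def Box (M L : ℕ) : Finset (ℤ × ℤ) := Ico (M : ℤ) (M + M) ×ˢ Ico (0 : ℤ) (0 + L)

lemma card_Box (M L : ℕ) : (Box M L).card = M * L := by
  rw [Box, card_product, Int.card_Ico, Int.card_Ico]
  simp

lemma dvd_of_lin {D q : ℕ} (h : Nat.Coprime q D) {m m' : ℤ}
    (hd : (q : ℤ) ∣ 1 + D * m) (hd' : (q : ℤ) ∣ 1 + D * m') : (q : ℤ) ∣ m - m' := by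
  have h1 : (q : ℤ) ∣ D * (m - m') := by
    have e : (D : ℤ) * (m - m') = (1 + D * m) - (1 + D * m') := by ring
    rw [e]
    exact dvd_sub hd hd'
  have h2 : IsCoprime (q : ℤ) (D : ℤ) := Nat.isCoprime_iff_coprime.2 h
  exact h2.dvd_of_dvd_mul_left h1

section

variable {a b : ℤ} {D M L ℓ : ℕ}

open scoped Classical in
/-- a common factor of `u` and `w` -/
noncomputable def B1 (D M L ℓ : ℕ) : Finset (ℤ × ℤ) :=
  (Box M L).filter fun z => (ℓ : ℤ) ∣ U D z.1 ∧ (ℓ : ℤ) ∣ 1 + D * z.2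

open scoped Classical in
/-- a square factor of `w` -/
noncomputable def B2 (D M L ℓ : ℕ) : Finset (ℤ × ℤ) :=
  (Box M L).filter fun z => (ℓ : ℤ) ^ 2 ∣ 1 + D * z.2

open scoped Classical in
/-- a square factor of `g` -/
noncomputable def B3 (a b : ℤ) (D M L ℓ : ℕ) : Finset (ℤ × ℤ) :=
  (Box M L).filter fun z => (ℓ : ℤ) ^ 2 ∣ gg a b (U D z.1) (V D z.2) ∧ ¬ (ℓ : ℤ) ∣ V D z.2 ∧
    IsCoprime (U D z.1) (V D z.2)

lemma B1_card (hℓ : ℓ.Prime) (hD : ¬ ℓ ∣ D) :
    ((B1 D M L ℓ).card : ℝ) ≤ (M / ℓ + 1) * (L / ℓ + 1) := by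
  classical
  have hc : Nat.Coprime ℓ D := (Nat.Prime.coprime_iff_not_dvd hℓ).2 hD
  set S1 := (Ico (M : ℤ) (M + M)).filter fun m => (ℓ : ℤ) ∣ U D m with hS1
  set S2 := (Ico (0 : ℤ) (0 + L)).filter fun n => (ℓ : ℤ) ∣ 1 + D * n with hS2
  have h1 : (S1.card : ℝ) ≤ M / ℓ + 1 := by
    apply one_class hℓ.pos (filter_subset _ _)
    intro m hm m' hm'
    rw [mem_filter] at hm hm'
    exact dvd_of_lin hc hm.2 hm'.2
  have h2 : (S2.card : ℝ) ≤ L / ℓ + 1 := by
    apply one_class hℓ.pos (filter_subset _ _)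
    intro m hm m' hm'
    rw [mem_filter] at hm hm'
    exact dvd_of_lin hc hm.2 hm'.2
  have h3 : B1 D M L ℓ ⊆ S1 ×ˢ S2 := by
    intro z hz
    rw [B1, mem_filter, Box, mem_product] at hz
    rw [mem_product, hS1, hS2, mem_filter, mem_filter]
    exact ⟨⟨hz.1.1, hz.2.1⟩, hz.1.2, hz.2.2⟩
  calc ((B1 D M L ℓ).card : ℝ) ≤ ((S1 ×ˢ S2).card : ℝ) := by exact_mod_cast card_le_card h3
    _ = (S1.card : ℝ) * S2.card := by
        rw [card_product]
        push_cast
        ring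
    _ ≤ _ := mul_le_mul h1 h2 (by positivity) (by positivity)

lemma B2_card (hℓ : ℓ.Prime) (hD : ¬ ℓ ∣ D) :
    ((B2 D M L ℓ).card : ℝ) ≤ M * (L / (ℓ : ℝ) ^ 2 + 1) := by
  classical
  have hc : Nat.Coprime (ℓ ^ 2) D :=
    Nat.Coprime.pow_left 2 ((Nat.Prime.coprime_iff_not_dvd hℓ).2 hD)
  set S2 := (Ico (0 : ℤ) (0 + L)).filter fun n => (ℓ : ℤ) ^ 2 ∣ 1 + D * n with hS2
  have h2 : (S2.card : ℝ) ≤ L / ((ℓ ^ 2 : ℕ) : ℝ) + 1 := by
    apply one_class (pow_pos hℓ.pos 2) (filter_subset _ _)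
    intro m hm m' hm'
    rw [mem_filter] at hm hm'
    apply dvd_of_lin hc
    · push_cast
      exact hm.2
    · push_cast
      exact hm'.2
  push_cast at h2
  have h3 : B2 D M L ℓ ⊆ Ico (M : ℤ) (M + M) ×ˢ S2 := by
    intro z hz
    rw [B2, mem_filter, Box, mem_product] at hz
    rw [mem_product, hS2, mem_filter]
    exact ⟨hz.1.1, hz.1.2, hz.2⟩
  calc ((B2 D M L ℓ).card : ℝ) ≤ ((Ico (M : ℤ) (M + M) ×ˢ S2).card : ℝ) := by
        exact_mod_cast card_le_card h3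
    _ = (M : ℝ) * S2.card := by
        rw [card_product, Int.card_Ico]
        push_cast
        have : ((M : ℤ) + M - M).toNat = M := by simp
        rw [this]
    _ ≤ _ := mul_le_mul_of_nonneg_left h2 (by positivity)

lemma B3_small (hab : Hyp a b D) (hℓ : ℓ.Prime) (hD : ¬ ℓ ∣ D) :
    ((B3 a b D M L ℓ).card : ℝ) ≤ L * (3 * (M / (ℓ : ℝ) ^ 2 + 1)) := by
  classical
  have hp := Nat.prime_iff_prime_int.1 hℓ
  have hmaps : Set.MapsTo (fun z : ℤ × ℤ => z.2) (B3 a b D M L ℓ : Set (ℤ × ℤ))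
      (Ico (0 : ℤ) (0 + L) : Finset ℤ) := by
    intro z hz
    rw [mem_coe, B3, mem_filter, Box, mem_product] at hz
    exact hz.1.2
  rw [card_eq_sum_card_fiberwise hmaps]
  push_cast
  have hf : ∀ n ∈ Ico (0 : ℤ) (0 + L),
      (((B3 a b D M L ℓ).filter fun z => z.2 = n).card : ℝ) ≤ 3 * (M / (ℓ : ℝ) ^ 2 + 1) := by
    intro n _
    by_cases hn : (ℓ : ℤ) ∣ V D n
    · have : (B3 a b D M L ℓ).filter (fun z => z.2 = n) = ∅ := by
        rw [filter_eq_empty_iff]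
        rintro z hz rfl
        rw [B3, mem_filter] at hz
        exact hz.2.2.1 hn
      rw [this, card_empty]
      push_cast
      positivity
    · set S := (Ico (M : ℤ) (M + M)).filter fun m => (ℓ : ℤ) ^ 2 ∣ gg a b (U D m) (V D n) with hS
      have h1 : ((B3 a b D M L ℓ).filter fun z => z.2 = n).card ≤ S.card := by
        apply card_le_card_of_injOn (fun z => z.1)
        · intro z hz
          rw [mem_coe, mem_filter, B3, mem_filter, Box, mem_product] at hz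
          obtain ⟨⟨⟨h1, h2⟩, h3, -⟩, rfl⟩ := hz
          rw [mem_coe, hS, mem_filter]
          exact ⟨h1, h3⟩
        · rintro ⟨m, n'⟩ hz ⟨m', n''⟩ hz' h
          rw [mem_coe, mem_filter] at hz hz'
          have e1 : n' = n := hz.2
          have e2 : n'' = n := hz'.2
          have e3 : m = m' := h
          rw [e1, e2, e3]
      have h2 : (S.card : ℝ) ≤ 3 * (M / (ℓ : ℝ) ^ 2 + 1) := by
        apply three_classes a b hℓ (fun h => hD (hab.bad ℓ hℓ h)) S (fun m => U D m)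
          (fun _ => V D n) (fun _ _ => hn) (fun m hm => by
            rw [hS, mem_filter] at hm
            exact hm.2) _ (by positivity)
        intro T hT h
        have h5 : (T.card : ℝ) ≤ M / ((ℓ ^ 2 : ℕ) : ℝ) + 1 := by
          apply one_class (pow_pos hℓ.pos 2) (hT.trans (filter_subset _ _))
          intro m hm m' hm'
          have h3 := h m hm m' hm'
          have e : U D m * V D n - U D m' * V D n = (V D n * D) * (m - m') := by
            simp only [U]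
            ring
          rw [e] at h3
          push_cast
          have h4 : IsCoprime ((ℓ : ℤ) ^ 2) (V D n * D) := by
            apply IsCoprime.pow_left
            apply IsCoprime.mul_right
            · exact (hp.coprime_iff_not_dvd).2 hn
            · exact (hp.coprime_iff_not_dvd).2 fun h => hD (by exact_mod_cast h)
          exact h4.dvd_of_dvd_mul_left h3
        push_cast at h5
        exact h5
      exact (by exact_mod_cast h1 : _ ≤ (S.card : ℝ)).trans h2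
  calc _ ≤ ∑ _n ∈ Ico (0 : ℤ) (0 + L), (3 * (M / (ℓ : ℝ) ^ 2 + 1) : ℝ) := sum_le_sum hf
    _ = _ := by
        rw [sum_const, Int.card_Ico, nsmul_eq_mul]
        simp

lemma B3_big (hab : Hyp a b D) (hL : 4 * D * (a.natAbs + b.natAbs + 1) * L ≤ M) (hℓ : ℓ.Prime)
    (hD : ¬ ℓ ∣ D) {Q : ℕ} (hQ : (2 * D * M) ^ 2 ≤ Q * ℓ ^ 2) :
    ((B3 a b D M L ℓ).card : ℝ) ≤ 3 * (Q + 1) := by
  classical
  have hDpos := hab.pos
  have hmem : ∀ z ∈ B3 a b D M L ℓ, 0 < V D z.2 ∧ V D z.2 ≤ U D z.1 ∧ U D z.1 ≤ 2 * D * M := by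
    intro z hz
    rw [B3, mem_filter, Box, mem_product, mem_Ico, mem_Ico] at hz
    obtain ⟨⟨⟨h1, h2⟩, h3, h4⟩, -⟩ := hz
    obtain ⟨h5, h6, h7⟩ := sizes (a := a) (b := b) hDpos hL h1 h2 h3 (by simpa using h4)
    refine ⟨h5, ?_, h7⟩
    have ha := abs_nonneg a
    have hb := abs_nonneg b
    nlinarith [mul_nonneg ha h5.le, mul_nonneg hb h5.le]
  apply three_classes a b hℓ (fun h => hD (hab.bad ℓ hℓ h)) _ (fun z : ℤ × ℤ => U D z.1)
    (fun z => V D z.2) (fun z hz => by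
      rw [B3, mem_filter] at hz
      exact hz.2.2.1) (fun z hz => by
      rw [B3, mem_filter] at hz
      exact hz.2.1) _ (by positivity)
  intro T hT h
  have h1 : (T.card : ℤ) ≤ Q + 1 := by
    apply slopes (q := (ℓ : ℤ) ^ 2) (H := 2 * D * M) (by positivity) (by exact_mod_cast hQ) T
      (fun z : ℤ × ℤ => U D z.1) (fun z => V D z.2)
    · rintro ⟨m, n⟩ _ ⟨m', n'⟩ _ h1 h2
      have hDz : (D : ℤ) ≠ 0 := by exact_mod_cast (by omega : D ≠ 0)
      simp only [U, V] at h1 h2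
      have e1 : m = m' := by
        have : (D : ℤ) * m = D * m' := by linarith
        exact mul_left_cancel₀ hDz this
      have e2 : n = n' := by
        have h3 := mul_left_cancel₀ hDz h2
        have : (D : ℤ) * n = D * n' := by linarith
        exact mul_left_cancel₀ hDz this
      rw [e1, e2]
    · intro z hz
      obtain ⟨h1, h2, h3⟩ := hmem z (hT hz)
      refine ⟨h1, h2, h3, ?_⟩
      have := hT hz
      rw [B3, mem_filter] at this
      exact this.2.2.2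
    · exact h
  exact_mod_cast h1

end

end Pool.Agent.Q1.SH
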