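import Pool.Agent.Q1.SH.Sieve2

/-!
# The number of the pairs with `v g(u, v)` squarefree
-/

set_option autoImplicit false

namespace Pool.Agent.Q1.SH

open Finset Pool.Agent.Y732

section

variable {a b : ℤ} {D M L : ℕ}

/-- the pairs for which `v g(u, v)` is squarefree -/
def Ok (a b : ℤ) (D : ℕ) (z : ℤ × ℤ) : Prop :=
  IsCoprime (U D z.1) (V D z.2) ∧ Squarefree (V D z.2 * gg a b (U D z.1) (V D z.2))

lemma not_dvd_D {ℓ : ℕ} (hℓ : ℓ.Prime) {m : ℤ} (h : (ℓ : ℤ) ∣ 1 + D * m) : ¬ ℓ ∣ D := by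
  intro hD
  have h1 : (ℓ : ℤ) ∣ D * m := Dvd.dvd.mul_right (by exact_mod_cast hD) m
  have h2 : (ℓ : ℤ) ∣ 1 := by
    have := dvd_sub h h1
    rwa [add_sub_cancel_right] at this
  exact (Nat.prime_iff_prime_int.1 hℓ).not_isUnit (isUnit_of_dvd_one h2)

lemma mem_bad (hab : Hyp a b D) (hL : 4 * D * (a.natAbs + b.natAbs + 1) * L ≤ M) {z : ℤ × ℤ}
    (hz : z ∈ Box M L) (hg : ¬ Ok a b D z) : ∃ ℓ : ℕ, ℓ.Prime ∧ ¬ ℓ ∣ D ∧
      (z ∈ B1 D M L ℓ ∨ z ∈ B2 D M L ℓ ∨ z ∈ B3 a b D M L ℓ) := by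
  by_contra hcon
  push Not at hcon
  apply hg
  have hDz : (D : ℤ) ≠ 0 := by
    have := hab.pos
    exact_mod_cast (by omega : D ≠ 0)
  have hbox := hz
  rw [Box, mem_product, mem_Ico, mem_Ico] at hbox
  obtain ⟨⟨m1, m2⟩, m3, m4⟩ := hbox
  obtain ⟨s1, s2, s3⟩ := sizes (a := a) (b := b) hab.pos hL m1 m2 m3 (by simpa using m4)
  have hw0 : 1 + (D : ℤ) * z.2 ≠ 0 := by
    intro h
    rw [V, h, mul_zero] at s1
    exact lt_irrefl _ s1
  have hc : IsCoprime (U D z.1) (V D z.2) := by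
    apply isCoprime_of_prime_dvd
    · rintro ⟨-, h⟩
      exact s1.ne' h
    · intro q hq h1 h2
      have hp : q.natAbs.Prime := Int.prime_iff_natAbs_prime.1 hq
      have h1' : ((q.natAbs : ℕ) : ℤ) ∣ U D z.1 := Int.natAbs_dvd.2 h1
      have h2' : ((q.natAbs : ℕ) : ℤ) ∣ V D z.2 := Int.natAbs_dvd.2 h2
      have h3 : ¬ q.natAbs ∣ D := not_dvd_D hp h1'
      have h4 : ((q.natAbs : ℕ) : ℤ) ∣ 1 + D * z.2 :=
        ((Nat.prime_iff_prime_int.1 hp).dvd_or_dvd h2').resolve_left
          (fun h => h3 (by exact_mod_cast h))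
      apply (hcon _ hp h3).1
      rw [B1, mem_filter]
      exact ⟨hz, h1', h4⟩
  refine ⟨hc, ?_⟩
  have hsqw : Squarefree (1 + (D : ℤ) * z.2) := by
    rw [← Int.squarefree_natAbs, Nat.squarefree_iff_prime_squarefree]
    intro ℓ hℓ h1
    have h2 : ((ℓ : ℕ) : ℤ) ^ 2 ∣ 1 + D * z.2 := by
      have h3 := Int.natCast_dvd.2 h1
      push_cast at h3
      rwa [← sq] at h3
    have h3 : ¬ ℓ ∣ D := not_dvd_D hℓ ((dvd_pow_self _ two_ne_zero).trans h2)
    apply (hcon _ hℓ h3).2.1
    rw [B2, mem_filter]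
    exact ⟨hz, h2⟩
  have hgu : gg a b (U D z.1) (V D z.2) = U D z.1 ^ 3 +
      V D z.2 * (a * U D z.1 * V D z.2 + b * V D z.2 ^ 2) := by
    rw [gg]
    ring
  have hcg : IsCoprime (V D z.2) (gg a b (U D z.1) (V D z.2)) := by
    rw [hgu]
    exact (hc.symm.pow_right).add_mul_left_right _
  have hsqg : Squarefree (gg a b (U D z.1) (V D z.2)) := by
    rw [← Int.squarefree_natAbs, Nat.squarefree_iff_prime_squarefree]
    intro ℓ hℓ h1
    have hp := Nat.prime_iff_prime_int.1 hℓ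
    have h2 : ((ℓ : ℕ) : ℤ) ^ 2 ∣ gg a b (U D z.1) (V D z.2) := by
      have h3 := Int.natCast_dvd.2 h1
      push_cast at h3
      rwa [← sq] at h3
    have h4 : ¬ (ℓ : ℤ) ∣ V D z.2 := by
      intro h
      exact hp.not_isUnit (hcg.isUnit_of_dvd' h ((dvd_pow_self _ two_ne_zero).trans h2))
    have h3 : ¬ ℓ ∣ D := fun h => h4 (Dvd.dvd.mul_right (by exact_mod_cast h) _)
    apply (hcon _ hℓ h3).2.2
    rw [B3, mem_filter]
    exact ⟨hz, h2, h4, hc⟩
  have hDw : IsCoprime (D : ℤ) (1 + D * z.2) := by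
    have : IsCoprime (D : ℤ) 1 := isCoprime_one_right
    exact this.add_mul_left_right _
  have hsqV : Squarefree (V D z.2) := by
    rw [V, squarefree_mul_iff]
    exact ⟨hDw.isRelPrime, Int.squarefree_natCast.2 hab.sq, hsqw⟩
  rw [squarefree_mul_iff]
  exact ⟨hcg.isRelPrime, hsqV, hsqg⟩

lemma sum_sq (N : ℕ) : ∑ k ∈ Icc 2 N, (1 : ℝ) / ((2 * k + 1 : ℕ) : ℝ) ^ 2 ≤ 1 / 8 := by
  have h := sum_inv_odd N
  have h2 : ((∑ k ∈ Icc 2 N, (1 : ℚ) / ((2 * k + 1 : ℕ) : ℚ) ^ 2 : ℚ) : ℝ) ≤ ((1 / 8 : ℚ) : ℝ) := by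
    exact_mod_cast h
  push_cast at h2 ⊢
  exact h2

lemma sum_lin (N : ℕ) : ∑ k ∈ Icc 2 N, (1 : ℝ) / ((2 * k + 1 : ℕ) : ℝ) ≤ √N := by
  rcases Nat.lt_or_ge N 1 with h | h
  · rw [Icc_eq_empty (by omega), sum_empty]
    positivity
  · induction N, h using Nat.le_induction with
    | base => simp
    | succ n hn ih =>
      rcases Nat.lt_or_ge n 1 with h1 | h1
      · omega
      · rw [sum_Icc_succ_top (by omega)]
        have h2 : (0 : ℝ) ≤ n := by positivity
        have h3 := Real.sqrt_nonneg ((n : ℝ))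
        have h4 := Real.sqrt_nonneg ((n : ℝ) + 1)
        have h5 := Real.sq_sqrt h2
        have h6 := Real.sq_sqrt (by linarith : (0 : ℝ) ≤ (n : ℝ) + 1)
        have h7 : √((n : ℝ)) ≤ √((n : ℝ) + 1) := Real.sqrt_le_sqrt (by linarith)
        have h8 : √((n : ℝ) + 1) ≤ n + 1 := by
          rw [Real.sqrt_le_left (by linarith)]
          nlinarith
        have h9 : (1 : ℝ) / ((2 * (n + 1) + 1 : ℕ) : ℝ) ≤ √((n : ℝ) + 1) - √((n : ℝ)) := by
          rw [div_le_iff₀ (by positivity)]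
          push_cast
          have h10 : (√((n : ℝ) + 1) - √((n : ℝ))) * (√((n : ℝ) + 1) + √((n : ℝ))) = 1 := by
            linear_combination h6 - h5
          have h11 : √((n : ℝ) + 1) + √((n : ℝ)) ≤ 2 * (n + 1) + 1 := by linarith
          calc (1 : ℝ) = (√((n : ℝ) + 1) - √((n : ℝ))) * (√((n : ℝ) + 1) + √((n : ℝ))) := h10.symm
            _ ≤ _ := mul_le_mul_of_nonneg_left h11 (by linarith)
        push_cast at h9 ⊢
        push_cast at ih
        linarith

lemma odd_prime (hab : Hyp a b D) {ℓ : ℕ} (hℓ : ℓ.Prime) (hD : ¬ ℓ ∣ D) :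
    ∃ k, 2 ≤ k ∧ ℓ = 2 * k + 1 := by
  have h6 := hab.six
  have h2 : ℓ ≠ 2 := by
    rintro rfl
    exact hD ((by norm_num : 2 ∣ 6).trans h6)
  have h3 : ℓ ≠ 3 := by
    rintro rfl
    exact hD ((by norm_num : 3 ∣ 6).trans h6)
  have h1 := hℓ.two_le
  have hodd := hℓ.eq_two_or_odd
  exact ⟨ℓ / 2, by omega, by omega⟩

open scoped Classical in
/-- the number of the good pairs -/
theorem ok_card (hab : Hyp a b D) (hL : 4 * D * (a.natAbs + b.natAbs + 1) * L ≤ M) (hM : 1 ≤ M) :
    (M : ℝ) * L / 4 - 7000 * D ^ 4 * (M * √M) ≤ (((Box M L).filter (Ok a b D)).card : ℝ) := by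
  have hDpos := hab.pos
  have hLM : L ≤ M := by
    have : 1 * L ≤ 4 * D * (a.natAbs + b.natAbs + 1) * L := by
      apply Nat.mul_le_mul_right
      have : 0 < 4 * D * (a.natAbs + b.natAbs + 1) := by positivity
      omega
    omega
  set z₀ := M / 24 with hz₀
  set R := Nat.sqrt (16 * D ^ 3 * M ^ 3) with hR
  set c : ℕ → Prop := fun k => (2 * k + 1).Prime ∧ ¬ (2 * k + 1) ∣ D with hc
  set S1 := (Icc 2 (D * L)).biUnion fun k => if c k then B1 D M L (2 * k + 1) else ∅ with hS1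
  set S2 := (Icc 2 (Nat.sqrt (D * L))).biUnion fun k => if c k then B2 D M L (2 * k + 1) else ∅
    with hS2
  set S3 := (Icc 2 z₀).biUnion fun k => if c k then B3 a b D M L (2 * k + 1) else ∅ with hS3
  set S4 := (Icc (z₀ + 1) R).biUnion fun k => if c k then B3 a b D M L (2 * k + 1) else ∅ with hS4
  have hsub : (Box M L).filter (fun z => ¬ Ok a b D z) ⊆ S1 ∪ S2 ∪ S3 ∪ S4 := by
    intro z hz
    rw [mem_filter] at hz
    obtain ⟨hzB, hzg⟩ := hz
    obtain ⟨ℓ, hℓ, hℓD, hmem⟩ := mem_bad hab hL hzB hzg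
    obtain ⟨k, hk2, rfl⟩ := odd_prime hab hℓ hℓD
    have hck : c k := ⟨hℓ, hℓD⟩
    have hbox := hzB
    rw [Box, mem_product, mem_Ico, mem_Ico] at hbox
    obtain ⟨⟨m1, m2⟩, m3, m4⟩ := hbox
    have m4' : z.2 < L := by simpa using m4
    obtain ⟨s1, s2, s3⟩ := sizes (a := a) (b := b) hab.pos hL m1 m2 m3 m4'
    have hDz : (1 : ℤ) ≤ D := by exact_mod_cast hDpos
    have hw : 1 + (D : ℤ) * z.2 ≤ D * L := by nlinarith
    have hw0 : 0 < 1 + (D : ℤ) * z.2 := by nlinarith
    simp only [mem_union]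
    rcases hmem with h | h | h
    · left; left; left
      rw [hS1, mem_biUnion]
      refine ⟨k, ?_, by rw [if_pos hck]; exact h⟩
      rw [B1, mem_filter] at h
      have h1 := Int.le_of_dvd hw0 h.2.2
      have h2 : 2 * k + 1 ≤ D * L := by exact_mod_cast h1.trans hw
      rw [mem_Icc]
      omega
    · left; left; right
      rw [hS2, mem_biUnion]
      refine ⟨k, ?_, by rw [if_pos hck]; exact h⟩
      rw [B2, mem_filter] at h
      have h1 := Int.le_of_dvd hw0 h.2
      have h2 : (2 * k + 1) ^ 2 ≤ D * L := by exact_mod_cast h1.trans hw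
      have h3 : 2 * k + 1 ≤ Nat.sqrt (D * L) := by
        rw [Nat.le_sqrt']
        exact h2
      rw [mem_Icc]
      omega
    · have h' := h
      rw [B3, mem_filter] at h'
      have hgs := g_size (a := a) (b := b) s1 s2
      have hu0 : 0 < U D z.1 := by
        have ha := abs_nonneg a
        have hb := abs_nonneg b
        nlinarith
      have hg0 : 0 < gg a b (U D z.1) (V D z.2) := by
        have := pow_pos hu0 3
        linarith [hgs.1]
      have h1 := Int.le_of_dvd hg0 h'.2.1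
      have h3 : (U D z.1) ^ 3 ≤ (2 * D * M) ^ 3 := pow_le_pow_left₀ hu0.le s3 3
      have h4 : (((2 * k + 1 : ℕ) : ℤ)) ^ 2 ≤ 16 * D ^ 3 * M ^ 3 := by
        calc _ ≤ _ := h1
          _ ≤ 2 * (U D z.1) ^ 3 := hgs.2
          _ ≤ 2 * (2 * D * M) ^ 3 := by linarith
          _ = _ := by ring
      have h5 : (2 * k + 1) ^ 2 ≤ 16 * D ^ 3 * M ^ 3 := by exact_mod_cast h4
      have h6 : 2 * k + 1 ≤ R := by
        rw [hR, Nat.le_sqrt']
        exact h5
      by_cases hk : k ≤ z₀
      · left; right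
        rw [hS3, mem_biUnion]
        exact ⟨k, by rw [mem_Icc]; exact ⟨hk2, hk⟩, by rw [if_pos hck]; exact h⟩
      · right
        rw [hS4, mem_biUnion]
        exact ⟨k, by rw [mem_Icc]; omega, by rw [if_pos hck]; exact h⟩
  have hMr : (1 : ℝ) ≤ M := by exact_mod_cast hM
  have hLr : (0 : ℝ) ≤ L := by positivity
  have hDr : (1 : ℝ) ≤ D := by exact_mod_cast hDpos
  have hLMr : (L : ℝ) ≤ M := by exact_mod_cast hLM
  -- first set
  have c1 : (S1.card : ℝ) ≤ M * L / 8 + (M + L) * √(D * L) + D * L := by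
    calc (S1.card : ℝ) ≤ ∑ k ∈ Icc 2 (D * L),
          ((if c k then B1 D M L (2 * k + 1) else ∅).card : ℝ) := by
          exact_mod_cast card_biUnion_le
      _ ≤ ∑ k ∈ Icc 2 (D * L), (M * L * (1 / ((2 * k + 1 : ℕ) : ℝ) ^ 2) +
          (M + L) * (1 / ((2 * k + 1 : ℕ) : ℝ)) + 1) := by
          refine sum_le_sum fun k _ => ?_
          split_ifs with hk
          · refine (B1_card hk.1 hk.2).trans (le_of_eq ?_)
            have : (((2 * k + 1 : ℕ) : ℝ)) ≠ 0 := by positivity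
            field_simp
            ring
          · rw [card_empty]
            push_cast
            positivity
      _ = M * L * (∑ k ∈ Icc 2 (D * L), 1 / ((2 * k + 1 : ℕ) : ℝ) ^ 2) +
          (M + L) * (∑ k ∈ Icc 2 (D * L), 1 / ((2 * k + 1 : ℕ) : ℝ)) +
          ((Icc 2 (D * L)).card : ℝ) := by
          rw [sum_add_distrib, sum_add_distrib, mul_sum, mul_sum, sum_const, nsmul_eq_mul, mul_one]
      _ ≤ M * L * (1 / 8) + (M + L) * √((D * L : ℕ) : ℝ) + ((D * L : ℕ) : ℝ) := by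
          have h1 := sum_sq (D * L)
          have h2 := sum_lin (D * L)
          have h3 : ((Icc 2 (D * L)).card : ℝ) ≤ ((D * L : ℕ) : ℝ) := by
            rw [Nat.card_Icc]
            exact_mod_cast (by omega)
          have h4 := mul_le_mul_of_nonneg_left h1 (by positivity : (0 : ℝ) ≤ M * L)
          have h5 := mul_le_mul_of_nonneg_left h2 (by positivity : (0 : ℝ) ≤ M + L)
          linarith
      _ = _ := by
          push_cast
          ring
  have c2 : (S2.card : ℝ) ≤ M * L / 8 + M * √(D * L) := by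
    calc (S2.card : ℝ) ≤ ∑ k ∈ Icc 2 (Nat.sqrt (D * L)),
          ((if c k then B2 D M L (2 * k + 1) else ∅).card : ℝ) := by
          exact_mod_cast card_biUnion_le
      _ ≤ ∑ k ∈ Icc 2 (Nat.sqrt (D * L)), (M * L * (1 / ((2 * k + 1 : ℕ) : ℝ) ^ 2) + M) := by
          refine sum_le_sum fun k _ => ?_
          split_ifs with hk
          · refine (B2_card hk.1 hk.2).trans (le_of_eq ?_)
            ring
          · rw [card_empty]
            push_cast
            positivity
      _ = M * L * (∑ k ∈ Icc 2 (Nat.sqrt (D * L)), 1 / ((2 * k + 1 : ℕ) : ℝ) ^ 2) +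
          ((Icc 2 (Nat.sqrt (D * L))).card : ℝ) * M := by
          rw [sum_add_distrib, mul_sum, sum_const, nsmul_eq_mul]
      _ ≤ M * L * (1 / 8) + √(D * L) * M := by
          have h1 := sum_sq (Nat.sqrt (D * L))
          have h3 : ((Icc 2 (Nat.sqrt (D * L))).card : ℝ) ≤ √(D * L) := by
            have h6 : ((Nat.sqrt (D * L) : ℕ) : ℝ) ≤ √((D * L : ℕ) : ℝ) := Real.nat_sqrt_le_real_sqrt
            push_cast at h6
            refine le_trans ?_ h6
            rw [Nat.card_Icc]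
            exact_mod_cast (by omega)
          have h4 := mul_le_mul_of_nonneg_left h1 (by positivity : (0 : ℝ) ≤ M * L)
          have h5 := mul_le_mul_of_nonneg_right h3 (by positivity : (0 : ℝ) ≤ M)
          linarith
      _ = _ := by ring
  have c3 : (S3.card : ℝ) ≤ M * L / 2 := by
    calc (S3.card : ℝ) ≤ ∑ k ∈ Icc 2 z₀,
          ((if c k then B3 a b D M L (2 * k + 1) else ∅).card : ℝ) := by
          exact_mod_cast card_biUnion_le
      _ ≤ ∑ k ∈ Icc 2 z₀, (3 * M * L * (1 / ((2 * k + 1 : ℕ) : ℝ) ^ 2) + 3 * L) := by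
          refine sum_le_sum fun k _ => ?_
          split_ifs with hk
          · refine (B3_small hab hk.1 hk.2).trans (le_of_eq ?_)
            ring
          · rw [card_empty]
            push_cast
            positivity
      _ = 3 * M * L * (∑ k ∈ Icc 2 z₀, 1 / ((2 * k + 1 : ℕ) : ℝ) ^ 2) +
          ((Icc 2 z₀).card : ℝ) * (3 * L) := by
          rw [sum_add_distrib, mul_sum, sum_const, nsmul_eq_mul]
      _ ≤ 3 * M * L * (1 / 8) + (M / 24) * (3 * L) := by
          have h1 := sum_sq z₀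
          have h3 : ((Icc 2 z₀).card : ℝ) ≤ (M : ℝ) / 24 := by
            have h6 : ((M / 24 : ℕ) : ℝ) ≤ (M : ℝ) / 24 := by
              have := @Nat.cast_div_le ℝ _ _ _ M 24
              simpa using this
            refine le_trans ?_ h6
            rw [Nat.card_Icc, ← hz₀]
            exact_mod_cast (by omega)
          have h4 := mul_le_mul_of_nonneg_left h1 (by positivity : (0 : ℝ) ≤ 3 * M * L)
          have h5 := mul_le_mul_of_nonneg_right h3 (by positivity : (0 : ℝ) ≤ 3 * L)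
          linarith
      _ = _ := by ring
  have c4 : (S4.card : ℝ) ≤ 3 * (576 * D ^ 2 + 1) * (4 * D ^ 2 * (M * √M)) := by
    calc (S4.card : ℝ) ≤ ∑ k ∈ Icc (z₀ + 1) R,
          ((if c k then B3 a b D M L (2 * k + 1) else ∅).card : ℝ) := by
          exact_mod_cast card_biUnion_le
      _ ≤ ∑ k ∈ Icc (z₀ + 1) R, (3 * ((576 * D ^ 2 : ℕ) + 1) : ℝ) := by
          refine sum_le_sum fun k hk => ?_
          rw [mem_Icc] at hk
          split_ifs with hc
          · apply B3_big hab hL hc.1 hc.2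
            have h1 : M ≤ 24 * k := by omega
            have h2 : M ^ 2 ≤ (24 * k) ^ 2 := Nat.pow_le_pow_left h1 2
            calc (2 * D * M) ^ 2 = 4 * D ^ 2 * M ^ 2 := by ring
              _ ≤ 4 * D ^ 2 * (24 * k) ^ 2 := Nat.mul_le_mul_left _ h2
              _ = 576 * D ^ 2 * (2 * k) ^ 2 := by ring
              _ ≤ 576 * D ^ 2 * (2 * k + 1) ^ 2 :=
                Nat.mul_le_mul_left _ (Nat.pow_le_pow_left (by omega) 2)
          · rw [card_empty]
            push_cast
            positivity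
      _ = ((Icc (z₀ + 1) R).card : ℝ) * (3 * (576 * D ^ 2 + 1)) := by
          rw [sum_const, nsmul_eq_mul]
          push_cast
          ring
      _ ≤ (4 * D ^ 2 * (M * √M)) * (3 * (576 * D ^ 2 + 1)) := by
          apply mul_le_mul_of_nonneg_right _ (by positivity)
          have h1 : ((Icc (z₀ + 1) R).card : ℝ) ≤ R := by
            rw [Nat.card_Icc]
            exact_mod_cast (by omega)
          have h2 : (R : ℝ) ≤ √((16 * D ^ 3 * M ^ 3 : ℕ) : ℝ) := Real.nat_sqrt_le_real_sqrt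
          have h3 : √((16 * D ^ 3 * M ^ 3 : ℕ) : ℝ) ≤ 4 * D ^ 2 * (M * √M) := by
            rw [Real.sqrt_le_left (by positivity)]
            have h4 : (4 * (D : ℝ) ^ 2 * (M * √M)) ^ 2 = 16 * D ^ 4 * M ^ 3 := by
              have := Real.sq_sqrt (by linarith : (0 : ℝ) ≤ M)
              calc (4 * (D : ℝ) ^ 2 * (M * √M)) ^ 2 = 16 * D ^ 4 * M ^ 2 * (√M) ^ 2 := by ring
                _ = _ := by
                  rw [this]
                  ring
            rw [h4]
            push_cast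
            have h5 : (D : ℝ) ^ 3 ≤ D ^ 4 := pow_le_pow_right₀ hDr (by norm_num)
            gcongr
          exact (h1.trans h2).trans h3
      _ = _ := by ring
  have hbad : (((Box M L).filter (fun z => ¬ Ok a b D z)).card : ℝ) ≤
      3 / 4 * (M * L) + 7000 * D ^ 4 * (M * √M) := by
    have h1 : (((Box M L).filter (fun z => ¬ Ok a b D z)).card : ℝ) ≤
        S1.card + S2.card + S3.card + S4.card := by
      have h2 := card_le_card hsub
      have h3 := card_union_le (S1 ∪ S2 ∪ S3) S4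
      have h4 := card_union_le (S1 ∪ S2) S3
      have h5 := card_union_le S1 S2
      exact_mod_cast (by omega)
    have hs1 : (1 : ℝ) ≤ √M := by
      rw [Real.one_le_sqrt]
      exact hMr
    have hs2 : √(D * L) ≤ D * √M := by
      rw [Real.sqrt_le_left (by positivity), mul_pow, Real.sq_sqrt (by linarith)]
      have : (D : ℝ) ≤ D ^ 2 := by nlinarith
      nlinarith
    have hD1 : (D : ℝ) ≤ D ^ 4 := by
      have := pow_le_pow_right₀ hDr (by norm_num : 1 ≤ 4)
      simpa using this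
    have hD2 : (D : ℝ) ^ 2 ≤ D ^ 4 := pow_le_pow_right₀ hDr (by norm_num)
    have hMs : (M : ℝ) ≤ M * √M := by nlinarith
    set X : ℝ := M * √M with hX
    have hX0 : 0 ≤ X := by positivity
    have e1 : ((M : ℝ) + L) * √(D * L) ≤ 2 * (D ^ 4 * X) := by
      calc ((M : ℝ) + L) * √(D * L) ≤ (2 * M) * (D * √M) :=
            mul_le_mul (by linarith) hs2 (by positivity) (by positivity)
        _ = 2 * (D * X) := by rw [hX]; ring
        _ ≤ _ := by
            have := mul_le_mul_of_nonneg_right hD1 hX0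
            linarith
    have e2 : (D : ℝ) * L ≤ D ^ 4 * X := by
      calc (D : ℝ) * L ≤ D * X := mul_le_mul_of_nonneg_left (hLMr.trans hMs) (by linarith)
        _ ≤ _ := mul_le_mul_of_nonneg_right hD1 hX0
    have e3 : (M : ℝ) * √(D * L) ≤ D ^ 4 * X := by
      calc (M : ℝ) * √(D * L) ≤ M * (D * √M) := mul_le_mul_of_nonneg_left hs2 (by linarith)
        _ = D * X := by rw [hX]; ring
        _ ≤ _ := mul_le_mul_of_nonneg_right hD1 hX0
    have e4 : 3 * (576 * (D : ℝ) ^ 2 + 1) * (4 * D ^ 2 * X) ≤ 6924 * (D ^ 4 * X) := by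
      have h7 : 3 * (576 * (D : ℝ) ^ 2 + 1) * (4 * D ^ 2 * X) =
          6912 * (D ^ 4 * X) + 12 * (D ^ 2 * X) := by ring
      rw [h7]
      have := mul_le_mul_of_nonneg_right hD2 hX0
      linarith
    have hDX : 0 ≤ (D : ℝ) ^ 4 * X := by positivity
    nlinarith
  have htot := card_filter_add_card_filter_not (s := Box M L) (Ok a b D)
  rw [card_Box] at htot
  have htot' : (((Box M L).filter (Ok a b D)).card : ℝ) +
      (((Box M L).filter (fun z => ¬ Ok a b D z)).card : ℝ) = M * L := by exact_mod_cast htot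
  nlinarith

end

end Pool.Agent.Q1.SH
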